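import Pool.Agent.L0h83.Hk.Step

set_option autoImplicit false

open MeasureTheory Set Filter Topology UnitAddTorus
open scoped ComplexConjugate ENNReal

namespace Pool.Agent.L0h83.Hk

variable {n : ℕ} {Ω : Set (Fin n → ℂ)}

lemma exists_ne_on (ho : IsOpen Ω) (hc : IsPreconnected Ω) {u : (Fin n → ℂ) → ℂ}
    (hu : DifferentiableOn ℂ u Ω) (hne : ∃ z ∈ Ω, u z ≠ 0) {U : Set (Fin n → ℂ)} (hU : IsOpen U)
    (hUΩ : U ⊆ Ω) (hUn : U.Nonempty) : ∃ z ∈ U, u z ≠ 0 := by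
  by_contra hcon
  push Not at hcon
  obtain ⟨x, hx⟩ := hUn
  obtain ⟨z, hz, hzn⟩ := hne
  refine hzn (eq_zero_of_eventually ho hc hu (hUΩ hx) ?_ z hz)
  filter_upwards [hU.mem_nhds hx] with y hy
  exact hcon y hy

lemma growth_up (ho : IsOpen Ω) (hc : IsPreconnected Ω) {φ u : (Fin n → ℂ) → ℂ}
    (hφ : DifferentiableOn ℂ φ Ω) (hu : DifferentiableOn ℂ u Ω)
    (hu2 : ∀ m : ℕ, MemLp (fun z => φ z ^ m * u z) 2 (volume.restrict Ω))
    (hne : ∃ z ∈ Ω, u z ≠ 0) {L C : ℝ} (hL : 0 ≤ L)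
    (hg : ∀ m : ℕ, Nn Ω (fun z => φ z ^ m * u z) ≤ L ^ m * C) : ∀ z ∈ Ω, ‖φ z‖ ^ 2 ≤ L := by
  by_contra hcon
  push Not at hcon
  obtain ⟨z₀, hz0, hlt⟩ := hcon
  obtain ⟨L', hL1, hL2⟩ := exists_between hlt
  have hcφ : ContinuousOn (fun z => ‖φ z‖ ^ 2) Ω := hφ.continuousOn.norm.pow 2
  set U : Set (Fin n → ℂ) := Ω ∩ (fun z => ‖φ z‖ ^ 2) ⁻¹' Ioi L' with hUdef
  have hU : IsOpen U := hcφ.isOpen_inter_preimage ho isOpen_Ioi
  have hUΩ : U ⊆ Ω := inter_subset_left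
  obtain ⟨z₁, hz1, hz1n⟩ := exists_ne_on ho hc hu hne hU hUΩ ⟨z₀, hz0, hL2⟩
  have hu20 : MemLp u 2 (volume.restrict Ω) := by
    have := hu2 0
    simpa using this
  have hI := setInt_pos ho hu.continuousOn hu20 hU hUΩ hz1 hz1n
  set I := ∫ z in U, ‖u z‖ ^ 2 with hIdef
  have hL'p : 0 < L' := hL.trans_lt hL1
  have hm : ∀ m : ℕ, L' ^ m * I ≤ L ^ m * C := by
    intro m
    refine le_trans ?_ (hg m)
    rw [hIdef, ← integral_const_mul]
    have hi : IntegrableOn (fun z => ‖φ z ^ m * u z‖ ^ 2) Ω volume := int_sq (hu2 m)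
    have hi0 : IntegrableOn (fun z => ‖u z‖ ^ 2) Ω volume := int_sq hu20
    calc ∫ z in U, L' ^ m * ‖u z‖ ^ 2 ≤ ∫ z in U, ‖φ z ^ m * u z‖ ^ 2 := by
          refine setIntegral_mono_on ((hi0.mono_set hUΩ).const_mul _) (hi.mono_set hUΩ)
            hU.measurableSet fun z hz => ?_
          rw [norm_mul, norm_pow, mul_pow, ← pow_mul, mul_comm m 2, pow_mul]
          have h1 : L' < ‖φ z‖ ^ 2 := hz.2
          gcongr
      _ ≤ ∫ z in Ω, ‖φ z ^ m * u z‖ ^ 2 := by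
          refine setIntegral_mono_set hi ?_ hUΩ.eventuallyLE
          exact Eventually.of_forall fun z => by positivity
  have hm2 : ∀ m : ℕ, I ≤ (L / L') ^ m * C := by
    intro m
    have h1 := hm m
    rw [div_pow, div_mul_eq_mul_div, le_div_iff₀ (pow_pos hL'p m)]
    linarith
  have ht : Tendsto (fun m : ℕ => (L / L') ^ m * C) atTop (𝓝 (0 * C)) := by
    refine Tendsto.mul_const C ?_
    refine tendsto_pow_atTop_nhds_zero_of_lt_one (by positivity) ?_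
    rw [div_lt_one hL'p]
    exact hL1
  rw [zero_mul] at ht
  have := ge_of_tendsto' ht hm2
  linarith

lemma growth_down (ho : IsOpen Ω) (hc : IsPreconnected Ω) {φ g : (Fin n → ℂ) → ℂ}
    (hφ : DifferentiableOn ℂ φ Ω) (hg : DifferentiableOn ℂ g Ω)
    (hg2 : MemLp g 2 (volume.restrict Ω)) (hne : ∃ z ∈ Ω, g z ≠ 0) {ℓ C : ℝ}
    (h : ∀ k : ℕ, ∃ u : (Fin n → ℂ) → ℂ, MemLp u 2 (volume.restrict Ω) ∧
      (∀ z ∈ Ω, φ z ^ k * u z = g z) ∧ ℓ ^ k * Nn Ω u ≤ C) : ∀ z ∈ Ω, ℓ ≤ ‖φ z‖ ^ 2 := by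
  by_contra hcon
  push Not at hcon
  obtain ⟨z₀, hz0, hlt⟩ := hcon
  obtain ⟨L', hL1, hL2⟩ := exists_between hlt
  have hcφ : ContinuousOn (fun z => ‖φ z‖ ^ 2) Ω := hφ.continuousOn.norm.pow 2
  set U : Set (Fin n → ℂ) := Ω ∩ (fun z => ‖φ z‖ ^ 2) ⁻¹' Iio L' with hUdef
  have hU : IsOpen U := hcφ.isOpen_inter_preimage ho isOpen_Iio
  have hUΩ : U ⊆ Ω := inter_subset_left
  obtain ⟨z₁, hz1, hz1n⟩ := exists_ne_on ho hc hg hne hU hUΩ ⟨z₀, hz0, hL1⟩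
  have hI := setInt_pos ho hg.continuousOn hg2 hU hUΩ hz1 hz1n
  set I := ∫ z in U, ‖g z‖ ^ 2 with hIdef
  have hL'p : 0 < L' := lt_of_le_of_lt (by positivity) hL1
  have hℓp : 0 < ℓ := hL'p.trans hL2
  have hm2 : ∀ m : ℕ, I ≤ (L' / ℓ) ^ m * C := by
    intro m
    obtain ⟨u, hu2, hug, huN⟩ := h m
    have hi : IntegrableOn (fun z => ‖u z‖ ^ 2) Ω volume := int_sq hu2
    have hig : IntegrableOn (fun z => ‖g z‖ ^ 2) Ω volume := int_sq hg2
    have h1 : I ≤ L' ^ m * Nn Ω u := by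
      rw [hIdef]
      unfold Nn
      rw [← integral_const_mul]
      calc ∫ z in U, ‖g z‖ ^ 2 ≤ ∫ z in U, L' ^ m * ‖u z‖ ^ 2 := by
            refine setIntegral_mono_on (hig.mono_set hUΩ) ((hi.mono_set hUΩ).const_mul _)
              hU.measurableSet fun z hz => ?_
            rw [← hug z hz.1, norm_mul, norm_pow, mul_pow, ← pow_mul, mul_comm m 2, pow_mul]
            have h1 : ‖φ z‖ ^ 2 < L' := hz.2
            gcongr
        _ ≤ ∫ z in Ω, L' ^ m * ‖u z‖ ^ 2 := by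
            refine setIntegral_mono_set (hi.const_mul _) ?_ hUΩ.eventuallyLE
            exact Eventually.of_forall fun z => by positivity
    rw [div_pow, div_mul_eq_mul_div, le_div_iff₀ (pow_pos hℓp m)]
    calc I * ℓ ^ m ≤ (L' ^ m * Nn Ω u) * ℓ ^ m := by gcongr
      _ = L' ^ m * (ℓ ^ m * Nn Ω u) := by ring
      _ ≤ L' ^ m * C := by gcongr
  have ht : Tendsto (fun m : ℕ => (L' / ℓ) ^ m * C) atTop (𝓝 (0 * C)) := by
    refine Tendsto.mul_const C ?_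
    refine tendsto_pow_atTop_nhds_zero_of_lt_one (by positivity) ?_
    rw [div_lt_one hℓp]
    exact hL2
  rw [zero_mul] at ht
  have := ge_of_tendsto' ht hm2
  linarith

/-- the conclusion of the basic step for all elements -/
def StepProp (Ω : Set (Fin n → ℂ)) (γ : Fin n → ℤ) (φ : (Fin n → ℂ) → ℂ)
    (τ : (Fin n → ℤ) → ℝ) : Prop :=
  ∀ w u, Elt Ω w u → MemLp (fun z => φ z * u z) 2 (volume.restrict Ω) ∧
      (Nn Ω (fun z => φ z * u z) ≤ τ w * Nn Ω u ∨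
        ∃ u', Elt Ω (w - γ) u' ∧ (∀ z ∈ Ω, φ z * u' z = u z) ∧
          Nn Ω (fun z => φ z * u z) ≤ τ w * Nn Ω u + Nn Ω u ^ 2 / Nn Ω u')

section

variable {γ : Fin n → ℤ} {φ : (Fin n → ℂ) → ℂ} {τ : (Fin n → ℤ) → ℝ}

lemma elt_succ (ho : IsOpen Ω) (hc : IsPreconnected Ω) (hφ : Hm Ω γ φ)
    (hφ0 : ∃ z ∈ Ω, φ z ≠ 0) (S : StepProp Ω γ φ τ) {w : Fin n → ℤ} {u : (Fin n → ℂ) → ℂ}
    (hu : Elt Ω w u) : Elt Ω (w + γ) (fun z => φ z * u z) := by
  refine ⟨?_, (S w u hu).1, ?_⟩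
  · have := hφ.mul hu.hm
    rwa [add_comm] at this
  · by_contra hcon
    push Not at hcon
    obtain ⟨z, hz, hzn⟩ := hu.ne
    exact hzn (eq_zero_of_mul ho hc hφ.diff hu.hm.diff hφ0 hcon z hz)

lemma elt_pow (ho : IsOpen Ω) (hc : IsPreconnected Ω) (hφ : Hm Ω γ φ)
    (hφ0 : ∃ z ∈ Ω, φ z ≠ 0) (S : StepProp Ω γ φ τ) {w : Fin n → ℤ} {u : (Fin n → ℂ) → ℂ}
    (hu : Elt Ω w u) (m : ℕ) : Elt Ω (w + (m : ℤ) • γ) (fun z => φ z ^ m * u z) := by
  induction m with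
  | zero => simpa using hu
  | succ m ih =>
    have := elt_succ ho hc hφ hφ0 S ih
    have e1 : w + (m : ℤ) • γ + γ = w + ((m + 1 : ℕ) : ℤ) • γ := by
      push_cast
      rw [add_smul, one_smul]
      abel
    rw [e1] at this
    convert this using 2
    ring

/-- ratios along the upward chain -/
lemma ratio_step (ho : IsOpen Ω) (hc : IsPreconnected Ω) (hφ : Hm Ω γ φ)
    (hφ0 : ∃ z ∈ Ω, φ z ≠ 0) (τ0 : ∀ w, 0 ≤ τ w) (S : StepProp Ω γ φ τ) {w : Fin n → ℤ}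
    {u : (Fin n → ℂ) → ℂ} (hu : Elt Ω w u) (m : ℕ) :
    Nn Ω (fun z => φ z ^ (m + 2) * u z) / Nn Ω (fun z => φ z ^ (m + 1) * u z) ≤
      τ (w + ((m + 1 : ℕ) : ℤ) • γ) +
        Nn Ω (fun z => φ z ^ (m + 1) * u z) / Nn Ω (fun z => φ z ^ m * u z) := by
  have h0 := (elt_pow ho hc hφ hφ0 S hu m)
  have h1 := (elt_pow ho hc hφ hφ0 S hu (m + 1))
  have p0 := h0.pos ho
  have p1 := h1.pos ho
  have e : (fun z => φ z ^ (m + 2) * u z) = fun z => φ z * (φ z ^ (m + 1) * u z) := by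
    funext z
    ring
  rw [div_le_iff₀ p1, e]
  obtain ⟨-, h | ⟨u', hu', hφu', h⟩⟩ := S _ _ h1
  · refine h.trans ?_
    rw [add_mul]
    have : 0 ≤ Nn Ω (fun z => φ z ^ (m + 1) * u z) / Nn Ω (fun z => φ z ^ m * u z) *
        Nn Ω (fun z => φ z ^ (m + 1) * u z) := by positivity
    linarith
  · refine h.trans ?_
    have hz : ∀ z ∈ Ω, u' z - φ z ^ m * u z = 0 := by
      refine eq_zero_of_mul ho hc hφ.diff (hu'.hm.diff.sub h0.hm.diff) hφ0 fun z hz => ?_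
      have := hφu' z hz
      rw [mul_sub, this]
      ring
    have hN : Nn Ω u' = Nn Ω (fun z => φ z ^ m * u z) := by
      unfold Nn
      refine setIntegral_congr_fun ho.measurableSet fun z hz' => ?_
      simp only
      rw [sub_eq_zero.mp (hz z hz')]
    rw [hN, add_mul]
    refine le_of_eq ?_
    ring

/-- the upward estimate -/
lemma up_est (ho : IsOpen Ω) (hc : IsPreconnected Ω) (hφ : Hm Ω γ φ)
    (hφ0 : ∃ z ∈ Ω, φ z ≠ 0) (τ0 : ∀ w, 0 ≤ τ w) (S : StepProp Ω γ φ τ) {w : Fin n → ℤ}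
    {u : (Fin n → ℂ) → ℂ} (hu : Elt Ω w u) {ε : ℝ}
    (hε : ∀ M : ℕ, ∑ m ∈ Finset.range (M + 1), τ (w + (m : ℤ) • γ) ≤ ε) :
    (∀ z ∈ Ω, ‖φ z‖ ^ 2 ≤ ε) ∨ ∃ u', Elt Ω (w - γ) u' ∧ (∀ z ∈ Ω, φ z * u' z = u z) ∧
      ∀ z ∈ Ω, ‖φ z‖ ^ 2 ≤ ε + Nn Ω u / Nn Ω u' := by
  have hup := hu.pos ho
  -- general bound
  have key : ∀ R : ℝ, 0 ≤ R → Nn Ω (fun z => φ z * u z) ≤ (τ w + R) * Nn Ω u →
      ∀ z ∈ Ω, ‖φ z‖ ^ 2 ≤ ε + R := by
    intro R hR hbase
    have hratio : ∀ m : ℕ, Nn Ω (fun z => φ z ^ (m + 1) * u z) / Nn Ω (fun z => φ z ^ m * u z) ≤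
        (∑ i ∈ Finset.range (m + 1), τ (w + (i : ℤ) • γ)) + R := by
      intro m
      induction m with
      | zero =>
        have e1 : (fun z => φ z ^ (0 + 1) * u z) = fun z => φ z * u z := by
          funext z; ring
        have e2 : (fun z => φ z ^ 0 * u z) = u := by
          funext z; ring
        rw [e1, e2, div_le_iff₀ hup]
        simpa using hbase
      | succ m ih =>
        refine (ratio_step ho hc hφ hφ0 τ0 S hu m).trans ?_
        rw [Finset.sum_range_succ]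
        linarith
    have hε0 : 0 ≤ ε := by
      have := hε 0
      simp only [zero_add, Finset.range_one, Finset.sum_singleton, Nat.cast_zero, zero_smul,
        add_zero] at this
      exact (τ0 w).trans this
    have hgrow : ∀ m : ℕ, Nn Ω (fun z => φ z ^ m * u z) ≤ (ε + R) ^ m * Nn Ω u := by
      intro m
      induction m with
      | zero => simp
      | succ m ih =>
        have p0 := (elt_pow ho hc hφ hφ0 S hu m).pos ho
        have h1 : Nn Ω (fun z => φ z ^ (m + 1) * u z) / Nn Ω (fun z => φ z ^ m * u z) ≤ ε + R :=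
          (hratio m).trans (by linarith [hε m])
        rw [div_le_iff₀ p0] at h1
        refine h1.trans ?_
        rw [pow_succ, mul_comm ((ε + R) ^ m) (ε + R), mul_assoc]
        gcongr
    exact growth_up ho hc hφ.diff hu.hm.diff
      (fun m => (elt_pow ho hc hφ hφ0 S hu m).lp) hu.ne (by positivity) hgrow
  obtain ⟨-, h | ⟨u', hu', hφu', h⟩⟩ := S _ _ hu
  · left
    intro z hz
    have := key 0 le_rfl (by rwa [add_zero]) z hz
    rwa [add_zero] at this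
  · right
    refine ⟨u', hu', hφu', ?_⟩
    have hp' := hu'.pos ho
    refine key _ (by positivity) ?_
    refine h.trans (le_of_eq ?_)
    field_simp

/-- the estimate on a whole line -/
lemma line_est (ho : IsOpen Ω) (hc : IsPreconnected Ω) (hφ : Hm Ω γ φ)
    (hφ0 : ∃ z ∈ Ω, φ z ≠ 0) (τ0 : ∀ w, 0 ≤ τ w) (S : StepProp Ω γ φ τ) {w₀ : Fin n → ℤ}
    {g : (Fin n → ℂ) → ℂ} (hg : Elt Ω w₀ g) {ε : ℝ}
    (hε : ∀ (k : ℤ) (M : ℕ), ∑ m ∈ Finset.range (M + 1), τ (w₀ + (k + (m : ℤ)) • γ) ≤ ε) :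
    ∀ z ∈ Ω, ∀ z' ∈ Ω, ‖φ z‖ ^ 2 ≤ ‖φ z'‖ ^ 2 + ε := by
  intro z hz z' hz'
  set ℓ := ‖φ z‖ ^ 2 - ε with hℓ
  by_cases hℓ0 : ℓ ≤ 0
  · have : 0 ≤ ‖φ z'‖ ^ 2 := by positivity
    linarith
  push Not at hℓ0
  have hind : ∀ k : ℕ, ∃ u, Elt Ω (w₀ - (k : ℤ) • γ) u ∧ (∀ x ∈ Ω, φ x ^ k * u x = g x) ∧
      ℓ ^ k * Nn Ω u ≤ Nn Ω g := by
    intro k
    induction k with
    | zero =>
      refine ⟨g, by simpa using hg, fun x _ => by simp, by simp⟩
    | succ k ih =>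
      obtain ⟨u, hu, hug, huN⟩ := ih
      have hε' : ∀ M : ℕ, ∑ m ∈ Finset.range (M + 1), τ (w₀ - (k : ℤ) • γ + (m : ℤ) • γ) ≤ ε := by
        intro M
        refine le_trans (le_of_eq ?_) (hε (-(k : ℤ)) M)
        refine Finset.sum_congr rfl fun m _ => ?_
        congr 1
        rw [add_smul, neg_smul]
        abel
      rcases up_est ho hc hφ hφ0 τ0 S hu hε' with h | ⟨u', hu', hφu', h⟩
      · have := h z hz
        exfalso
        linarith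
      · refine ⟨u', ?_, fun x hx => ?_, ?_⟩
        · have e1 : w₀ - (k : ℤ) • γ - γ = w₀ - ((k + 1 : ℕ) : ℤ) • γ := by
            push_cast
            rw [add_smul, one_smul]
            abel
          rwa [e1] at hu'
        · rw [← hug x hx, ← hφu' x hx]
          ring
        · have hp' := hu'.pos ho
          have h1 : ℓ ≤ Nn Ω u / Nn Ω u' := by
            have := h z hz
            linarith
          rw [le_div_iff₀ hp'] at h1
          calc ℓ ^ (k + 1) * Nn Ω u' = ℓ ^ k * (ℓ * Nn Ω u') := by ring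
            _ ≤ ℓ ^ k * Nn Ω u := by gcongr
            _ ≤ Nn Ω g := huN
  have := growth_down ho hc hφ.diff hg.hm.diff hg.lp hg.ne (ℓ := ℓ) (C := Nn Ω g)
    (fun k => by
      obtain ⟨u, hu, hug, huN⟩ := hind k
      exact ⟨u, hu.lp, hug, huN⟩) z' hz'
  linarith

end

end Pool.Agent.L0h83.Hk
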