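import Pool.Agent.L0h83.Hk.Chain

set_option autoImplicit false

open MeasureTheory Set Filter Topology UnitAddTorus
open scoped ComplexConjugate ENNReal

namespace Pool.Agent.L0h83.Hk

variable {n : ℕ} {Ω : Set (Fin n → ℂ)}

lemma exists_mFourier_ne {γ : Fin n → ℤ} (hγ : γ ≠ 0) : ∃ t : Tn n, mFourier γ t ≠ 1 := by
  obtain ⟨j, hj⟩ := Function.ne_iff.mp hγ
  rw [Pi.zero_apply] at hj
  have hjR : (γ j : ℝ) ≠ 0 := Int.cast_ne_zero.mpr hj
  have hjC : (γ j : ℂ) ≠ 0 := Int.cast_ne_zero.mpr hj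
  refine ⟨Pi.single j ((1 / (2 * (γ j : ℝ)) : ℝ) : UnitAddCircle), ?_⟩
  have e1 : mFourier γ (Pi.single j ((1 / (2 * (γ j : ℝ)) : ℝ) : UnitAddCircle)) =
      fourier (γ j) ((1 / (2 * (γ j : ℝ)) : ℝ) : UnitAddCircle) := by
    simp only [mFourier, ContinuousMap.coe_mk]
    rw [Finset.prod_eq_single j]
    · rw [Pi.single_eq_same]
    · intro i _ hi
      rw [Pi.single_eq_of_ne hi, fourier_eval_zero]
    · intro h
      exact absurd (Finset.mem_univ j) h
  rw [e1, fourier_coe_apply]
  have e2 : (2 * (Real.pi : ℂ) * Complex.I * (γ j : ℂ) * ((1 / (2 * (γ j : ℝ)) : ℝ) : ℂ) /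
      ((1 : ℝ) : ℂ)) = Real.pi * Complex.I := by
    push_cast
    field_simp
  rw [e2, Complex.exp_pi_mul_I]
  norm_num

/-- homogeneous functions of constant modulus and nonzero weight vanish -/
lemma not_const_modulus (ho : IsOpen Ω) (hc : IsPreconnected Ω) (hI : Inv Ω) {γ : Fin n → ℤ}
    (hγ : γ ≠ 0) {φ : (Fin n → ℂ) → ℂ} (hφ : Hm Ω γ φ) (hφ0 : ∃ z ∈ Ω, φ z ≠ 0)
    (h : ∀ z ∈ Ω, ∀ z' ∈ Ω, ‖φ z‖ ^ 2 ≤ ‖φ z'‖ ^ 2) : False := by
  obtain ⟨z₀, hz0, hn0⟩ := hφ0
  have hmax : IsMaxOn (norm ∘ φ) Ω z₀ := by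
    intro z hz
    change ‖φ z‖ ≤ ‖φ z₀‖
    have := h z hz z₀ hz0
    exact (pow_le_pow_iff_left₀ (norm_nonneg _) (norm_nonneg _) two_ne_zero).mp this
  have hconst := Complex.eqOn_of_isPreconnected_of_isMaxOn_norm hc ho hφ.diff hz0 hmax
  obtain ⟨t, ht⟩ := exists_mFourier_ne hγ
  have h1 : φ (rot t z₀) = φ z₀ := hconst (hI t z₀ hz0)
  rw [hφ.hom t z₀ hz0] at h1
  exact ht (mul_right_cancel₀ hn0 (by rw [h1, one_mul]))

/-- powers of a coordinate -/
lemma elt_coord (ho : IsOpen Ω) (hb : Bornology.IsBounded Ω) (hne : Ω.Nonempty) (a : Fin n)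
    (j : ℕ) : Elt Ω ((j : ℤ) • Pi.single a 1) (fun z => z a ^ j) := by
  have h1 : Hm Ω (Pi.single a 1) (fun z => z a) := by
    refine ⟨by fun_prop, fun t z _ => ?_⟩
    rw [rot_apply]
    congr 1
    rw [mFourier_single]
  have h2 : Hm Ω ((j : ℤ) • Pi.single a 1) (fun z => z a ^ j) := by
    induction j with
    | zero =>
      refine ⟨by fun_prop, fun t z _ => ?_⟩
      simp [mFourier_zero]
    | succ j ih =>
      have := ih.mul h1
      have e1 : (j : ℤ) • (Pi.single a 1 : Fin n → ℤ) + Pi.single a 1 =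
          ((j + 1 : ℕ) : ℤ) • Pi.single a 1 := by
        push_cast
        rw [add_smul, one_smul]
      rw [e1] at this
      convert this using 2
      exact pow_succ _ _
  refine ⟨h2, ?_, ?_⟩
  · obtain ⟨R, hR⟩ := hb.exists_norm_le
    have hfin : IsFiniteMeasure (volume.restrict Ω) :=
      ⟨by rw [Measure.restrict_apply_univ]; exact hb.measure_lt_top⟩
    refine MemLp.of_bound (meas_of_diff ho h2.diff) (R ^ j) ?_
    filter_upwards [ae_restrict_mem ho.measurableSet] with z hz
    rw [norm_pow]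
    have : ‖z a‖ ≤ R := (norm_le_pi_norm z a).trans (hR z hz)
    gcongr
  · obtain ⟨z, hz, hzn⟩ := (dense_ne n).inter_open_nonempty _ ho hne
    exact ⟨z, hz, pow_ne_zero _ (hzn a)⟩

/-- choice of a line with small sums -/
lemma exists_line (hn : 2 ≤ n) {γ : Fin n → ℤ} (hγ : γ ≠ 0) {τ : (Fin n → ℤ) → ℝ}
    (hτ : Summable τ) {ε : ℝ} (hε : 0 < ε) :
    ∃ (a : Fin n) (j : ℕ), ∀ (k : ℤ) (M : ℕ),
      ∑ m ∈ Finset.range (M + 1), τ ((j : ℤ) • Pi.single a 1 + (k + (m : ℤ)) • γ) ≤ ε := by
  obtain ⟨b, hb⟩ := Function.ne_iff.mp hγ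
  rw [Pi.zero_apply] at hb
  obtain ⟨a, hab⟩ : ∃ a : Fin n, a ≠ b := by
    have : Nontrivial (Fin n) := Fin.nontrivial_iff_two_le.mpr hn
    exact exists_ne b
  obtain ⟨S, hS⟩ := summable_iff_vanishing_norm.mp hτ ε hε
  set Λ : ℕ × ℤ → (Fin n → ℤ) := fun p => (p.1 : ℤ) • Pi.single a 1 + p.2 • γ with hΛ
  have hinj : Function.Injective Λ := by
    rintro ⟨j, k⟩ ⟨j', k'⟩ h
    have h1 := congrFun h b
    simp only [hΛ, Pi.add_apply, Pi.smul_apply, Pi.single_eq_of_ne hab.symm, smul_eq_mul,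
      mul_zero, zero_add] at h1
    have hk : k = k' := mul_right_cancel₀ hb h1
    subst hk
    have h2 := congrFun h a
    simp only [hΛ, Pi.add_apply, Pi.smul_apply, Pi.single_eq_same, smul_eq_mul, mul_one] at h2
    have hj : j = j' := by
      have := add_right_cancel h2
      exact_mod_cast this
    rw [hj]
  have hfin : (Prod.fst '' (Λ ⁻¹' (S : Set (Fin n → ℤ)))).Finite :=
    (S.finite_toSet.preimage hinj.injOn).image _
  obtain ⟨j, hj⟩ := hfin.exists_notMem
  refine ⟨a, j, fun k M => ?_⟩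
  have hinj2 : Function.Injective fun m : ℕ => Λ (j, k + (m : ℤ)) := by
    intro m m' h
    have := hinj h
    simpa using this
  set F : Finset (Fin n → ℤ) := (Finset.range (M + 1)).image fun m : ℕ => Λ (j, k + (m : ℤ))
    with hF
  have hd : Disjoint F S := by
    rw [Finset.disjoint_left]
    intro w hw hwS
    rw [hF, Finset.mem_image] at hw
    obtain ⟨m, -, hm⟩ := hw
    refine hj ⟨(j, k + (m : ℤ)), ?_, rfl⟩
    rw [Set.mem_preimage, hm]
    exact hwS
  have h1 := hS F hd
  rw [hF, Finset.sum_image (fun x _ y _ h => hinj2 h)] at h1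
  exact (le_abs_self _).trans h1.le

/-- a function all of whose nonzero torus coefficients vanish is invariant -/
lemma inv_of_coeff (hI : Inv Ω) {f : (Fin n → ℂ) → ℂ} (hf : ContinuousOn f Ω)
    (h : ∀ γ : Fin n → ℤ, γ ≠ 0 → ∀ z ∈ Ω, Q γ f z = 0) (t : Tn n) {z : Fin n → ℂ} (hz : z ∈ Ω) :
    f (rot t z) = f z := by
  set g : C(Tn n, ℂ) := ⟨fun t => f (rot t z), cont_orbit hI hf hz⟩ with hg
  have hcoef : ∀ γ : Fin n → ℤ, γ ≠ 0 → mFourierCoeff g γ = 0 := by
    intro γ hγ
    exact h γ hγ z hz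
  have hfs : Function.support (mFourierCoeff g) ⊆ ({0} : Finset (Fin n → ℤ)) := by
    intro γ hγ
    by_contra hne
    rw [Finset.coe_singleton, Set.mem_singleton_iff] at hne
    exact hγ (hcoef γ hne)
  have hs : Summable (mFourierCoeff g) := summable_of_hasFiniteSupport
    ((Finset.finite_toSet _).subset hfs)
  have key : ∀ s : Tn n, g s = mFourierCoeff g 0 := by
    intro s
    have h1 := hasSum_mFourier_series_apply_of_summable hs s
    have h2 : HasSum (fun i => mFourierCoeff g i • mFourier i s)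
        (mFourierCoeff g 0 • mFourier 0 s) := by
      refine hasSum_single 0 fun i hi => ?_
      rw [hcoef i hi, zero_smul]
    have := h1.unique h2
    rw [this, mFourier_zero]
    simp
  have h1 := key t
  have h2 := key 0
  have e1 : g t = f (rot t z) := rfl
  have e2 : g 0 = f z := by
    change f (rot 0 z) = f z
    rw [rot_zero]
  rw [← e1, ← e2, h1, h2]

/-- the core theorem -/
theorem core (hn : 2 ≤ n) (ho : IsOpen Ω) (hc : IsPreconnected Ω) (hne : Ω.Nonempty)
    (hb : Bornology.IsBounded Ω) (hI : Inv Ω) {f : (Fin n → ℂ) → ℂ}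
    (hf : DifferentiableOn ℂ f Ω) {τ : (Fin n → ℤ) → ℝ} (τ0 : ∀ w, 0 ≤ τ w) (hτ : Summable τ)
    (H : ∀ w u, Elt Ω w u → ∃ p : (Fin n → ℂ) → ℂ, DifferentiableOn ℂ p Ω ∧
      MemLp (fun z => conj (f z) * u z - p z) 2 (volume.restrict Ω) ∧
      Nn Ω (fun z => conj (f z) * u z - p z) ≤ τ w * Nn Ω u ∧
      ∀ h, DifferentiableOn ℂ h Ω → MemLp h 2 (volume.restrict Ω) →
        ∫ z in Ω, (conj (f z) * u z - p z) * conj (h z) = 0) :
    ∃ c, ∀ z ∈ Ω, f z = c := by
  have hms := ho.measurableSet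
  -- all nonzero coefficients vanish
  have hQ : ∀ γ : Fin n → ℤ, γ ≠ 0 → ∀ z ∈ Ω, Q γ f z = 0 := by
    intro γ hγ
    by_contra hcon
    push Not at hcon
    set φ := Q γ f with hφdef
    have hφ : Hm Ω γ φ := Q_mem ho hI γ hf
    have S : StepProp Ω γ φ τ := by
      intro w u hu
      obtain ⟨p, hp, hp2, hpN, hpo⟩ := H w u hu
      set F : (Fin n → ℂ) → ℂ := fun z => conj (f z) * u z - p z with hFdef
      have hFc : ContinuousOn F Ω :=
        ((hf.continuousOn.star).mul hu.hm.diff.continuousOn).sub hp.continuousOn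
      have hη : Hm Ω (w - γ) (fun z => -1 * Q (w - γ) p z) :=
        (Q_mem ho hI (w - γ) hp).const_mul (-1)
      have hD : ∀ z ∈ Ω, Q (w - γ) F z = conj (φ z) * u z + -1 * Q (w - γ) p z := by
        intro z hz
        have h1 : Q (w - γ) F z =
            Q (w - γ) (fun x => conj (f x) * u x) z - Q (w - γ) p z := by
          unfold Q
          rw [← integral_sub]
          · refine integral_congr_ae (Eventually.of_forall fun t => ?_)
            simp only [hFdef]
            ring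
          · apply Continuous.integrable_of_hasCompactSupport
            · refine (mFourier _).continuous.mul ?_
              exact cont_orbit hI ((hf.continuousOn.star).mul hu.hm.diff.continuousOn) hz
            · exact HasCompactSupport.of_compactSpace _
          · apply Continuous.integrable_of_hasCompactSupport
            · refine (mFourier _).continuous.mul ?_
              exact cont_orbit hI hp.continuousOn hz
            · exact HasCompactSupport.of_compactSpace _
        rw [h1, Q_prod hu.hm hz]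
        ring
      have hQm : AEStronglyMeasurable (Q (w - γ) F) (volume.restrict Ω) := by
        have h1 : ContinuousOn (fun z => conj (φ z) * u z + -1 * Q (w - γ) p z) Ω :=
          ((hφ.diff.continuousOn.star).mul hu.hm.diff.continuousOn).add hη.diff.continuousOn
        refine (h1.aestronglyMeasurable hms).congr ?_
        filter_upwards [ae_restrict_mem hms] with z hz
        rw [hD z hz]
      have hlint := Q_lint ho hI (w - γ) hFc
      have heq : ∀ G : (Fin n → ℂ) → ℂ, eLpNorm G 2 (volume.restrict Ω) ^ 2 =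
          ∫⁻ z in Ω, ‖G z‖ₑ ^ 2 := by
        intro G
        have := eLpNorm_nnreal_pow_eq_lintegral (f := G) (μ := volume.restrict Ω)
          (p := (2 : NNReal)) (by norm_num)
        simpa using this
      have hle : eLpNorm (Q (w - γ) F) 2 (volume.restrict Ω) ≤
          eLpNorm F 2 (volume.restrict Ω) := by
        have h1 : eLpNorm (Q (w - γ) F) 2 (volume.restrict Ω) ^ 2 ≤
            eLpNorm F 2 (volume.restrict Ω) ^ 2 := by
          rw [heq, heq]
          exact hlint
        exact (ENNReal.pow_le_pow_left_iff two_ne_zero).mp h1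
      have hD2 : MemLp (Q (w - γ) F) 2 (volume.restrict Ω) := ⟨hQm, hle.trans_lt hp2.2⟩
      have hNle : Nn Ω (Q (w - γ) F) ≤ Nn Ω F := by
        have e : ∀ G : (Fin n → ℂ) → ℂ, MemLp G 2 (volume.restrict Ω) →
            Nn Ω G = (∫⁻ z in Ω, ‖G z‖ₑ ^ 2).toReal := by
          intro G hG
          unfold Nn
          rw [integral_eq_lintegral_of_nonneg_ae (f := fun z => ‖G z‖ ^ 2)
            (Eventually.of_forall fun z => by positivity)
            (hG.aestronglyMeasurable.norm.pow 2)]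
          congr 1
          refine lintegral_congr fun z => ?_
          rw [ENNReal.ofReal_pow (norm_nonneg _), ofReal_norm]
        rw [e _ hD2, e _ hp2]
        refine ENNReal.toReal_mono ?_ hlint
        rw [← heq]
        exact ENNReal.pow_ne_top hp2.2.ne
      refine step ho hc hI hφ hcon hu hη hD hD2 (hNle.trans hpN) ?_
      intro h hh hh2
      rw [Q_pair ho hI (w - γ) hp2 hh hh2]
      exact hpo h hh.diff hh2
    refine not_const_modulus ho hc hI hγ hφ hcon fun z hz z' hz' => ?_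
    refine le_of_forall_pos_le_add fun ε hε => ?_
    obtain ⟨a, j, haj⟩ := exists_line hn hγ hτ hε
    exact line_est ho hc hφ hcon τ0 S (elt_coord ho hb hne a j) haj z hz z' hz'
  have hf0 : Hm Ω 0 f := by
    refine ⟨hf, fun t z hz => ?_⟩
    rw [inv_of_coeff hI hf.continuousOn hQ t hz, mFourier_zero]
    simp
  have h10 : Hm Ω 0 (fun _ => (1 : ℂ)) := by
    refine ⟨differentiableOn_const 1, fun t z hz => ?_⟩
    rw [mFourier_zero]
    simp
  obtain ⟨z₀, hz0⟩ := hne
  obtain ⟨c, hc'⟩ := hom_unique ho hc h10 hf0 ⟨z₀, hz0, one_ne_zero⟩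
  exact ⟨c, fun z hz => by rw [hc' z hz, mul_one]⟩

end Pool.Agent.L0h83.Hk
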