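import Mathlib

set_option autoImplicit false

open scoped InnerProductSpace ENNReal

namespace Pool.Agent.L0h83.Hk

variable {H K : Type*} [NormedAddCommGroup H] [InnerProductSpace ℂ H]
  [NormedAddCommGroup K] [InnerProductSpace ℂ K]

lemma parseval {ι : Type*} (b : HilbertBasis ι ℂ H) (x : H) :
    HasSum (fun i => ‖⟪b i, x⟫_ℂ‖ ^ 2) (‖x‖ ^ 2) := by
  have h1 := b.hasSum_inner_mul_inner x x
  have h2 := RCLike.hasSum_re ℂ h1
  convert h2 using 1
  · funext i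
    rw [inner_mul_symm_re_eq_norm, norm_mul, norm_inner_symm, sq]
  · rw [inner_self_eq_norm_sq]

lemma parseval_enn {ι : Type*} (b : HilbertBasis ι ℂ H) (x : H) :
    ∑' i, ENNReal.ofReal (‖⟪b i, x⟫_ℂ‖ ^ 2) = ENNReal.ofReal (‖x‖ ^ 2) := by
  rw [← (parseval b x).tsum_eq, ENNReal.ofReal_tsum_of_nonneg (fun i => by positivity)
    (parseval b x).summable]

lemma bessel_enn {κ : Type*} {v : κ → H} (hv : Orthonormal ℂ v) (x : H) :
    ∑' k, ENNReal.ofReal (‖⟪v k, x⟫_ℂ‖ ^ 2) ≤ ENNReal.ofReal (‖x‖ ^ 2) := by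
  rw [← ENNReal.ofReal_tsum_of_nonneg (fun i => by positivity) (hv.inner_products_summable x)]
  exact ENNReal.ofReal_le_ofReal (hv.tsum_inner_products_le x)

/-- square sums over orthonormal families -/
theorem hs_summable [CompleteSpace H] [CompleteSpace K] (T : H →L[ℂ] K) {ι : Type*}
    (b : HilbertBasis ι ℂ H)
    (hb : Summable fun i => ‖T (b i)‖ ^ 2) {κ : Type*} {v : κ → H} (hv : Orthonormal ℂ v) :
    Summable fun k => ‖T (v k)‖ ^ 2 := by
  obtain ⟨w, c, -⟩ := exists_hilbertBasis ℂ K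
  have hle : ∑' k, ENNReal.ofReal (‖T (v k)‖ ^ 2) ≤ ∑' i, ENNReal.ofReal (‖T (b i)‖ ^ 2) := by
    calc ∑' k, ENNReal.ofReal (‖T (v k)‖ ^ 2)
        = ∑' k, ∑' j, ENNReal.ofReal (‖⟪c j, T (v k)⟫_ℂ‖ ^ 2) := by
          refine tsum_congr fun k => ?_
          rw [parseval_enn c]
      _ = ∑' j, ∑' k, ENNReal.ofReal (‖⟪c j, T (v k)⟫_ℂ‖ ^ 2) := ENNReal.tsum_comm
      _ = ∑' j, ∑' k, ENNReal.ofReal
            (‖⟪v k, (ContinuousLinearMap.adjoint T) (c j)⟫_ℂ‖ ^ 2) := by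
          refine tsum_congr fun j => tsum_congr fun k => ?_
          rw [ContinuousLinearMap.adjoint_inner_right, norm_inner_symm]
      _ ≤ ∑' j, ENNReal.ofReal (‖(ContinuousLinearMap.adjoint T) (c j)‖ ^ 2) :=
          ENNReal.tsum_le_tsum fun j => bessel_enn hv _
      _ = ∑' j, ∑' i, ENNReal.ofReal
            (‖⟪b i, (ContinuousLinearMap.adjoint T) (c j)⟫_ℂ‖ ^ 2) := by
          refine tsum_congr fun j => ?_
          rw [parseval_enn b]
      _ = ∑' i, ∑' j, ENNReal.ofReal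
            (‖⟪b i, (ContinuousLinearMap.adjoint T) (c j)⟫_ℂ‖ ^ 2) := ENNReal.tsum_comm
      _ = ∑' i, ∑' j, ENNReal.ofReal (‖⟪c j, T (b i)⟫_ℂ‖ ^ 2) := by
          refine tsum_congr fun i => tsum_congr fun j => ?_
          rw [ContinuousLinearMap.adjoint_inner_right, norm_inner_symm]
      _ = ∑' i, ENNReal.ofReal (‖T (b i)‖ ^ 2) := by
          refine tsum_congr fun i => ?_
          rw [parseval_enn c]
  have hfin : ∑' i, ENNReal.ofReal (‖T (b i)‖ ^ 2) ≠ ∞ := by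
    rw [← ENNReal.ofReal_tsum_of_nonneg (fun i => by positivity) hb]
    exact ENNReal.ofReal_ne_top
  have hfin2 : ∑' k, ENNReal.ofReal (‖T (v k)‖ ^ 2) ≠ ∞ := ne_top_of_le_ne_top hfin hle
  have := ENNReal.summable_toReal hfin2
  refine this.congr fun k => ?_
  rw [ENNReal.toReal_ofReal (by positivity)]

end Pool.Agent.L0h83.Hk
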