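import Pool.Agent.L0h83.Hk.Torus

set_option autoImplicit false

open MeasureTheory Set Filter Topology UnitAddTorus
open scoped ComplexConjugate ENNReal

namespace Pool.Agent.L0h83.Hk

section identity

variable {E : Type*} [NormedAddCommGroup E] [NormedSpace ℂ E]

/-- the identity theorem -/
theorem eq_zero_of_eventually {Ω : Set E} (ho : IsOpen Ω) (hc : IsPreconnected Ω) {F : E → ℂ}
    (hF : DifferentiableOn ℂ F Ω) {z₀ : E} (h0 : z₀ ∈ Ω) (hz0 : ∀ᶠ z in 𝓝 z₀, F z = 0) :
    ∀ z ∈ Ω, F z = 0 := by
  set S : Set E := {z | ∀ᶠ x in 𝓝 z, F x = 0} with hS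
  have hSo : IsOpen S := isOpen_setOfPred_eventually_nhds
  have hsub : Ω ⊆ S := by
    refine hc.subset_of_closure_inter_subset hSo ⟨z₀, h0, hz0⟩ ?_
    rintro z ⟨hzc, hzΩ⟩
    obtain ⟨r, hr, hrs⟩ := Metric.isOpen_iff.mp ho z hzΩ
    obtain ⟨y, hyS, hyz⟩ := Metric.mem_closure_iff.mp hzc r hr
    have hyb : y ∈ Metric.ball z r := by
      rw [Metric.mem_ball, dist_comm]
      exact hyz
    have hall : ∀ x ∈ Metric.ball z r, F x = 0 := by
      intro x hx
      set ψ : ℂ → E := fun ζ => y + ζ • (x - y) with hψ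
      have hψd : Differentiable ℂ ψ := by fun_prop
      set U : Set ℂ := ψ ⁻¹' Metric.ball z r with hU
      have hUo : IsOpen U := Metric.isOpen_ball.preimage hψd.continuous
      have hUc : Convex ℝ U := by
        intro a ha b hb s t hs ht hst
        have : ψ (s • a + t • b) = s • ψ a + t • ψ b := by
          simp only [hψ, Complex.real_smul, smul_add, add_smul]
          have e1 : y = (s : ℝ) • y + (t : ℝ) • y := by rw [← add_smul, hst, one_smul]
          have e2 : ((s : ℂ) * a) • (x - y) = s • a • (x - y) := by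
            rw [mul_smul]; rfl
          have e3 : ((t : ℂ) * b) • (x - y) = t • b • (x - y) := by
            rw [mul_smul]; rfl
          rw [e2, e3]
          nth_rewrite 1 [e1]
          abel
        change ψ (s • a + t • b) ∈ Metric.ball z r
        rw [this]
        exact convex_ball z r ha hb hs ht hst
      have hG : DifferentiableOn ℂ (fun ζ => F (ψ ζ)) U := by
        refine hF.comp hψd.differentiableOn ?_
        intro ζ hζ
        exact hrs hζ
      have hGa : AnalyticOnNhd ℂ (fun ζ => F (ψ ζ)) U := hG.analyticOnNhd hUo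
      have h0U : (0 : ℂ) ∈ U := by
        change ψ 0 ∈ Metric.ball z r
        simpa [hψ] using hyb
      have h1U : (1 : ℂ) ∈ U := by
        change ψ 1 ∈ Metric.ball z r
        simpa [hψ] using hx
      have hev : ∀ᶠ ζ in 𝓝 (0 : ℂ), F (ψ ζ) = 0 := by
        have h2 : Tendsto ψ (𝓝 0) (𝓝 y) := by
          have := hψd.continuous.tendsto 0
          simpa [hψ] using this
        exact h2.eventually hyS
      have := hGa.eqOn_zero_of_preconnected_of_eventuallyEq_zero hUc.isPreconnected h0U hev h1U
      simpa [hψ] using this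
    exact Filter.mem_of_superset (Metric.ball_mem_nhds z hr) hall
  intro z hz
  exact (hsub hz).self_of_nhds

/-- a product of holomorphic functions vanishes only if one of them does -/
theorem eq_zero_of_mul {Ω : Set E} (ho : IsOpen Ω) (hc : IsPreconnected Ω) {F G : E → ℂ}
    (hF : DifferentiableOn ℂ F Ω) (hG : DifferentiableOn ℂ G Ω) (hF0 : ∃ z ∈ Ω, F z ≠ 0)
    (h : ∀ z ∈ Ω, F z * G z = 0) : ∀ z ∈ Ω, G z = 0 := by
  obtain ⟨z₀, hz0, hne⟩ := hF0
  refine eq_zero_of_eventually ho hc hG hz0 ?_
  have h1 : ContinuousAt F z₀ := (hF.differentiableAt (ho.mem_nhds hz0)).continuousAt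
  filter_upwards [h1.eventually_ne hne, ho.mem_nhds hz0] with z hz hzΩ
  exact (mul_eq_zero.mp (h z hzΩ)).resolve_left hz

end identity

variable {n : ℕ}

/-- rotation in one coordinate -/
lemma rot_single (j : Fin n) (θ : ℝ) (z : Fin n → ℂ) :
    rot (Pi.single j ((θ / (2 * Real.pi) : ℝ) : UnitAddCircle)) z =
      Function.update z j (Complex.exp (θ * Complex.I) * z j) := by
  funext i
  by_cases hi : i = j
  · subst hi
    rw [Function.update_self, rot_apply, Pi.single_eq_same, fourier_coe_apply]
    congr 2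
    have : (Real.pi : ℂ) ≠ 0 := Complex.ofReal_ne_zero.mpr Real.pi_ne_zero
    push_cast
    field_simp
  · rw [Function.update_of_ne hi, rot_apply, Pi.single_eq_of_ne hi]
    simp

/-- the set of points with nonzero coordinates is dense -/
lemma dense_ne (n : ℕ) : Dense {z : Fin n → ℂ | ∀ j, z j ≠ 0} := by
  have := dense_pi (α := fun _ : Fin n => ℂ) (s := fun _ => {(0 : ℂ)}ᶜ) (univ : Set (Fin n))
    (fun i _ => dense_compl_singleton (0 : ℂ))
  convert this using 1
  ext z
  simp [Set.mem_pi]

/-- homogeneous functions of the same weight are proportional -/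
theorem hom_unique {Ω : Set (Fin n → ℂ)} (ho : IsOpen Ω) (hc : IsPreconnected Ω)
    {w : Fin n → ℤ} {e e' : (Fin n → ℂ) → ℂ} (he : Hm Ω w e) (he' : Hm Ω w e')
    (hne : ∃ z ∈ Ω, e z ≠ 0) : ∃ c : ℂ, ∀ z ∈ Ω, e' z = c * e z := by
  obtain ⟨z₁, hz1, hz1n⟩ := hne
  -- a point with nonzero coordinates
  have hop : IsOpen (Ω ∩ e ⁻¹' {0}ᶜ) :=
    he.diff.continuousOn.isOpen_inter_preimage ho isOpen_compl_singleton
  obtain ⟨z₀, ⟨hz0, hz0e⟩, hz0n⟩ := (dense_ne n).inter_open_nonempty _ hop ⟨z₁, hz1, hz1n⟩
  have hop2 : IsOpen ((Ω ∩ e ⁻¹' {0}ᶜ) ∩ {z | ∀ j, z j ≠ 0}) := by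
    refine hop.inter ?_
    have : {z : Fin n → ℂ | ∀ j, z j ≠ 0} = ⋂ j, {z | z j ≠ 0} := by
      ext z; simp
    rw [this]
    exact isOpen_iInter_of_finite fun j => isOpen_ne_fun (continuous_apply j) continuous_const
  obtain ⟨r, hr, hrs⟩ := Metric.isOpen_iff.mp hop2 z₀ ⟨⟨hz0, hz0e⟩, hz0n⟩
  set q : (Fin n → ℂ) → ℂ := fun z => e' z / e z with hq
  have hqd : DifferentiableOn ℂ q (Metric.ball z₀ r) := by
    have h1 : DifferentiableOn ℂ e' (Metric.ball z₀ r) := he'.diff.mono fun z hz => (hrs hz).1.1
    have h2 : DifferentiableOn ℂ e (Metric.ball z₀ r) := he.diff.mono fun z hz => (hrs hz).1.1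
    have h3 := h1.mul (h2.inv fun z hz => (hrs hz).1.2)
    refine h3.congr fun z _ => ?_
    simp [hq, div_eq_mul_inv]
  have hfd : ∀ z ∈ Metric.ball z₀ r, fderiv ℂ q z = 0 := by
    intro z hz
    have hd : DifferentiableAt ℂ q z := hqd.differentiableAt (Metric.isOpen_ball.mem_nhds hz)
    have hz' := hrs hz
    have key : ∀ j, fderiv ℂ q z (Pi.single j 1) = 0 := by
      intro j
      set pth : ℝ → (Fin n → ℂ) := fun θ =>
        Function.update z j (Complex.exp (θ * Complex.I) * z j) with hpth
      have hp0 : pth 0 = z := by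
        simp [hpth]
      have hconst : ∀ θ, q (pth θ) = q z := by
        intro θ
        rw [hpth]
        simp only
        rw [← rot_single j θ z]
        simp only [hq]
        rw [he.hom _ z hz'.1.1, he'.hom _ z hz'.1.1]
        rw [mul_div_mul_left]
        intro h0
        have := mFourier_ne w (Pi.single j ((θ / (2 * Real.pi) : ℝ) : UnitAddCircle))
        rw [h0, norm_zero] at this
        norm_num at this
      have hpd : HasDerivAt pth (Pi.single j (Complex.I * z j)) 0 := by
        rw [hasDerivAt_pi]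
        intro i
        by_cases hi : i = j
        · subst hi
          have h1 : HasDerivAt (fun θ : ℝ => Complex.exp (θ * Complex.I) * z i)
              (Complex.exp (((0 : ℝ) : ℂ) * Complex.I) * (1 * Complex.I) * z i) 0 := by
            have h2 : HasDerivAt (fun θ : ℝ => (θ : ℂ) * Complex.I) (1 * Complex.I) 0 :=
              (Complex.ofRealCLM.hasDerivAt (x := (0:ℝ))).mul_const _
            exact (h2.cexp).mul_const _
          simp only [hpth, Function.update_self, Pi.single_eq_same]
          have e0 : Complex.I * z i =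
              Complex.exp (((0 : ℝ) : ℂ) * Complex.I) * (1 * Complex.I) * z i := by
            rw [Complex.ofReal_zero, zero_mul, Complex.exp_zero, one_mul, one_mul]
          rw [e0]
          exact h1
        · simp only [hpth, Function.update_of_ne hi, Pi.single_eq_of_ne hi]
          exact hasDerivAt_const _ _
      have hd' : HasFDerivAt q ((fderiv ℂ q z).restrictScalars ℝ) (pth 0) := by
        rw [hp0]
        exact hd.hasFDerivAt.restrictScalars ℝ
      have hcomp := hd'.comp_hasDerivAt (0 : ℝ) hpd
      have hc0 : HasDerivAt (q ∘ pth) 0 0 := by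
        have : q ∘ pth = fun _ => q z := by
          funext θ
          exact hconst θ
        rw [this]
        exact hasDerivAt_const _ _
      have := hcomp.unique hc0
      have e1 : (Pi.single j (Complex.I * z j) : Fin n → ℂ) =
          (Complex.I * z j) • Pi.single j 1 := by
        rw [← Pi.single_smul]
        simp
      rw [e1] at this
      have e2 : ((fderiv ℂ q z).restrictScalars ℝ) ((Complex.I * z j) • Pi.single j 1) =
          (Complex.I * z j) * fderiv ℂ q z (Pi.single j 1) := by
        change fderiv ℂ q z ((Complex.I * z j) • Pi.single j 1) = _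
        rw [map_smul, smul_eq_mul]
      rw [e2] at this
      refine (mul_eq_zero.mp this).resolve_left ?_
      exact mul_ne_zero Complex.I_ne_zero (hz'.2 j)
    ext v
    rw [← Finset.univ_sum_single v, map_sum]
    refine Finset.sum_eq_zero fun i _ => ?_
    have e1 : (Pi.single i (v i) : Fin n → ℂ) = v i • Pi.single i 1 := by
      rw [← Pi.single_smul]
      simp
    rw [e1, map_smul, key i, smul_zero]
  have hqc : ∀ z ∈ Metric.ball z₀ r, q z = q z₀ := by
    intro z hz
    exact Metric.isOpen_ball.is_const_of_fderiv_eq_zero (convex_ball z₀ r).isPreconnected hqd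
      (fun x hx => hfd x hx) hz (Metric.mem_ball_self hr)
  refine ⟨q z₀, ?_⟩
  have hfin : ∀ z ∈ Ω, e' z - q z₀ * e z = 0 := by
    refine eq_zero_of_eventually ho hc (he'.diff.sub (he.diff.const_mul _)) hz0 ?_
    filter_upwards [Metric.ball_mem_nhds z₀ hr] with z hz
    have h1 := hqc z hz
    have h2 : e z ≠ 0 := (hrs hz).1.2
    rw [← h1]
    simp only [hq]
    field_simp
    ring
  intro z hz
  exact sub_eq_zero.mp (hfin z hz)

end Pool.Agent.L0h83.Hk
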