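import Pool.Agent.Helper853.Bk.Bergman

set_option autoImplicit false

open MeasureTheory Set Filter Topology Metric
open scoped ComplexConjugate ENNReal

namespace Pool.Agent.L0h83.Hk

variable {n : ℕ}

lemma eLpNorm_two_sq {μ : Measure (Fin n → ℂ)} (G : (Fin n → ℂ) → ℂ) :
    eLpNorm G 2 μ ^ 2 = ∫⁻ z, ‖G z‖ₑ ^ 2 ∂μ := by
  have := eLpNorm_nnreal_pow_eq_lintegral (f := G) (μ := μ) (p := (2 : NNReal)) (by norm_num)
  simpa using this

lemma vol_ball_eq (x : Fin n → ℂ) (r : ℝ) :
    volume (closedBall x r) = volume (closedBall (0 : Fin n → ℂ) r) :=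
  Measure.addHaar_closedBall_center volume x r

lemma sup_le_l2 {Ω K : Set (Fin n → ℂ)} {h : (Fin n → ℂ) → ℂ} (hh : DifferentiableOn ℂ h Ω)
    {x : Fin n → ℂ} {r : ℝ} (hsub : closedBall x r ⊆ K) (hK : K ⊆ Ω) :
    ENNReal.ofReal (‖h x‖ ^ 2) * volume (closedBall (0 : Fin n → ℂ) r) ≤
      eLpNorm h 2 (volume.restrict K) ^ 2 := by
  rw [← vol_ball_eq x r, eLpNorm_two_sq]
  refine (Pool.Agent.Helper853.Bk.bergman_ineq hh (hsub.trans hK)).trans ?_
  refine (lintegral_mono_set hsub).trans (le_of_eq ?_)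
  refine lintegral_congr fun z => ?_
  rw [ENNReal.ofReal_pow (norm_nonneg _), ofReal_norm]

/-- local `L²` limits of holomorphic functions are holomorphic -/
theorem loc_lim {Ω : Set (Fin n → ℂ)} (ho : IsOpen Ω) {p : ℕ → (Fin n → ℂ) → ℂ}
    (hp : ∀ m, DifferentiableOn ℂ (p m) Ω) {w : (Fin n → ℂ) → ℂ}
    (hw : AEStronglyMeasurable w (volume.restrict Ω))
    (hlim : ∀ z r, closedBall z r ⊆ Ω →
      Tendsto (fun m => eLpNorm (p m - w) 2 (volume.restrict (closedBall z r))) atTop (𝓝 0)) :
    ∃ P, DifferentiableOn ℂ P Ω ∧ w =ᵐ[volume.restrict Ω] P := by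
  -- uniform Cauchy property on small balls
  have huc : ∀ z₀ ∈ Ω, ∃ r > 0, closedBall z₀ (r + r) ⊆ Ω ∧
      UniformCauchySeqOn p atTop (closedBall z₀ r) := by
    intro z₀ hz0
    obtain ⟨R, hR, hRs⟩ := Metric.isOpen_iff.mp ho z₀ hz0
    set r := R / 3 with hr
    have hrp : 0 < r := by positivity
    have hK : closedBall z₀ (r + r) ⊆ Ω := by
      refine (closedBall_subset_ball ?_).trans hRs
      rw [hr]
      linarith
    refine ⟨r, hrp, hK, ?_⟩
    set K := closedBall z₀ (r + r) with hKdef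
    set a : ℕ → ℝ≥0∞ := fun m => eLpNorm (p m - w) 2 (volume.restrict K) with ha
    have ha0 : Tendsto a atTop (𝓝 0) := hlim z₀ (r + r) hK
    have hwK : AEStronglyMeasurable w (volume.restrict K) :=
      hw.mono_measure (Measure.restrict_mono hK le_rfl)
    have hpK : ∀ m, AEStronglyMeasurable (p m) (volume.restrict K) := fun m =>
      ((hp m).continuousOn.mono hK).aestronglyMeasurable isClosed_closedBall.measurableSet
    set V := volume (closedBall (0 : Fin n → ℂ) r) with hV
    have hVp : 0 < V := measure_closedBall_pos _ _ hrp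
    have hVf : V ≠ ∞ := (measure_closedBall_lt_top).ne
    have hest : ∀ m l, ∀ x ∈ closedBall z₀ r,
        ENNReal.ofReal (‖p m x - p l x‖ ^ 2) * V ≤ (a m + a l) ^ 2 := by
      intro m l x hx
      have hsub : closedBall x r ⊆ K := by
        refine closedBall_subset_closedBall' ?_
        rw [mem_closedBall] at hx
        linarith
      have h1 := sup_le_l2 ((hp m).sub (hp l)) hsub hK
      refine h1.trans ?_
      gcongr
      have e : (p m - p l) = (p m - w) - (p l - w) := by
        funext y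
        simp
      change eLpNorm (p m - p l) 2 _ ≤ _
      rw [e]
      exact eLpNorm_sub_le ((hpK m).sub hwK) ((hpK l).sub hwK) (by norm_num)
    intro U hU
    obtain ⟨ε, hε, hεU⟩ := Metric.mem_uniformity_dist.mp hU
    have hc : 0 < ENNReal.ofReal (ε ^ 2) * V := by
      have : 0 < ENNReal.ofReal (ε ^ 2) := ENNReal.ofReal_pos.mpr (by positivity)
      exact ENNReal.mul_pos this.ne' hVp.ne'
    have ht : Tendsto (fun q : ℕ × ℕ => (a q.1 + a q.2) ^ 2) (atTop ×ˢ atTop) (𝓝 0) := by
      have h1 : Tendsto (fun q : ℕ × ℕ => a q.1 + a q.2) (atTop ×ˢ atTop) (𝓝 (0 + 0)) :=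
        (ha0.comp tendsto_fst).add (ha0.comp tendsto_snd)
      rw [add_zero] at h1
      have h2 := (ENNReal.continuous_pow 2).tendsto (0 : ℝ≥0∞)
      have h3 := h2.comp h1
      simpa [Function.comp_def] using h3
    filter_upwards [ht.eventually (gt_mem_nhds hc)] with q hq x hx
    apply hεU
    have h1 := (hest q.1 q.2 x hx).trans_lt hq
    have h2 : ENNReal.ofReal (‖p q.1 x - p q.2 x‖ ^ 2) < ENNReal.ofReal (ε ^ 2) :=
      (ENNReal.mul_lt_mul_iff_left hVp.ne' hVf).mp h1
    have h3 : ‖p q.1 x - p q.2 x‖ ^ 2 < ε ^ 2 :=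
      (ENNReal.ofReal_lt_ofReal_iff (by positivity)).mp h2
    rw [dist_eq_norm]
    exact (pow_lt_pow_iff_left₀ (norm_nonneg _) hε.le two_ne_zero).mp h3
  -- pointwise limit
  have hpt : ∀ x, x ∈ Ω → ∃ y, Tendsto (fun m => p m x) atTop (𝓝 y) := by
    intro x hx
    obtain ⟨r, hr, -, hu⟩ := huc x hx
    exact cauchySeq_tendsto_of_complete (hu.cauchySeq (mem_closedBall_self hr.le))
  choose! P hP using hpt
  refine ⟨P, ?_, ?_⟩
  · intro z₀ hz0
    apply DifferentiableAt.differentiableWithinAt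
    obtain ⟨r, hr, hK, hu⟩ := huc z₀ hz0
    have hsubK : closedBall z₀ r ⊆ Ω := (closedBall_subset_closedBall (by linarith)).trans hK
    obtain ⟨N, hN⟩ := (Metric.uniformCauchySeqOn_iff.mp hu) 1 one_pos
    obtain ⟨M, hM⟩ := (isCompact_closedBall z₀ r).exists_bound_of_continuousOn
      ((hp N).continuousOn.mono hsubK)
    refine Pool.Agent.Helper853.Bk.differentiableAt_of_tendsto (G := p) (M := M + 1) hr ?_ ?_
    · filter_upwards [eventually_ge_atTop N] with m hm
      refine ⟨(hp m).mono (ball_subset_closedBall.trans hsubK), fun x hx => ?_⟩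
      have hx' := ball_subset_closedBall hx
      have h1 := hN m hm N le_rfl x hx'
      have h2 := hM x hx'
      rw [dist_eq_norm] at h1
      calc ‖p m x‖ = ‖p N x + (p m x - p N x)‖ := by rw [add_sub_cancel]
        _ ≤ ‖p N x‖ + ‖p m x - p N x‖ := norm_add_le _ _
        _ ≤ M + 1 := by linarith
    · intro x hx
      exact hP x (hsubK (ball_subset_closedBall hx))
  · rw [Filter.EventuallyEq, ae_restrict_iff' ho.measurableSet]
    change volume {x | ¬ (x ∈ Ω → w x = P x)} = 0
    refine measure_null_of_locally_null _ fun x hx => ?_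
    have hxΩ : x ∈ Ω := by
      by_contra hcon
      exact hx fun h => absurd h hcon
    obtain ⟨r, hr, hK, -⟩ := huc x hxΩ
    set K := closedBall x (r + r) with hKdef
    have hwK : AEStronglyMeasurable w (volume.restrict K) :=
      hw.mono_measure (Measure.restrict_mono hK le_rfl)
    have hpK : ∀ m, AEStronglyMeasurable (p m) (volume.restrict K) := fun m =>
      ((hp m).continuousOn.mono hK).aestronglyMeasurable isClosed_closedBall.measurableSet
    have htm := tendstoInMeasure_of_tendsto_eLpNorm (μ := volume.restrict K) two_ne_zero hpK hwK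
      (hlim x (r + r) hK)
    obtain ⟨ns, hns, hae⟩ := htm.exists_seq_tendsto_ae
    have hKeq : ∀ᵐ y ∂(volume.restrict K), w y = P y := by
      filter_upwards [hae, ae_restrict_mem isClosed_closedBall.measurableSet] with y hy hyK
      exact tendsto_nhds_unique hy ((hP y (hK hyK)).comp hns.tendsto_atTop)
    rw [ae_restrict_iff' isClosed_closedBall.measurableSet] at hKeq
    refine ⟨{y | ¬ (y ∈ Ω → w y = P y)} ∩ K, ?_, ?_⟩
    · exact inter_mem_nhdsWithin _ (closedBall_mem_nhds x (by positivity))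
    · refine measure_mono_null ?_ hKeq
      rintro y ⟨hy1, hy2⟩ hy3
      exact hy1 fun _ => hy3 hy2

end Pool.Agent.L0h83.Hk
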