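import Pool.Agent.L0h83.Hk.Ident
import Pool.Agent.Helper853.Bk.Bergman

set_option autoImplicit false

open MeasureTheory Set Filter Topology UnitAddTorus
open scoped ComplexConjugate ENNReal

namespace Pool.Agent.L0h83.Hk

variable {n : ℕ}

/-- the linear map given by a rotation -/
noncomputable def rotL (t : Tn n) : (Fin n → ℂ) →L[ℂ] (Fin n → ℂ) :=
  ContinuousLinearMap.pi fun j => (fourier 1 (t j) : ℂ) • ContinuousLinearMap.proj j

lemma rotL_apply (t : Tn n) (z : Fin n → ℂ) : rotL t z = rot t z := by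
  funext j
  simp [rotL, rot_apply]

lemma norm_rotL_le (t : Tn n) : ‖rotL t‖ ≤ 1 := by
  refine ContinuousLinearMap.opNorm_le_bound _ zero_le_one fun z => ?_
  rw [one_mul, rotL_apply, pi_norm_le_iff_of_nonneg (norm_nonneg z)]
  intro j
  rw [rot_apply, norm_mul, fourier_apply, Circle.norm_coe, one_mul]
  exact norm_le_pi_norm z j

lemma continuous_rotL : Continuous fun t : Tn n => rotL t := by
  rw [continuous_clm_apply]
  intro z
  simp_rw [rotL_apply]
  exact continuous_rot.comp (Continuous.prodMk_left z)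

lemma hasFDerivAt_rot (t : Tn n) (z : Fin n → ℂ) : HasFDerivAt (rot t) (rotL t) z := by
  have : rot t = rotL t := by
    funext x
    rw [rotL_apply]
  rw [this]
  exact (rotL t).hasFDerivAt

/-- averages of holomorphic functions are holomorphic -/
theorem Q_diff {Ω : Set (Fin n → ℂ)} (ho : IsOpen Ω) (hI : Inv Ω) (v : Fin n → ℤ)
    {p : (Fin n → ℂ) → ℂ} (hp : DifferentiableOn ℂ p Ω) : DifferentiableOn ℂ (Q v p) Ω := by
  intro z₀ hz0
  apply DifferentiableAt.differentiableWithinAt
  obtain ⟨r, hr, hrs⟩ := Metric.isOpen_iff.mp ho z₀ hz0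
  have hsub : Metric.closedBall z₀ (r / 2) ⊆ Ω := by
    refine (Metric.closedBall_subset_ball ?_).trans hrs
    linarith
  have hsm := Pool.Agent.Helper853.Bk.contDiffOn_of_differentiableOn ho hp
  have hfc : ContinuousOn (fderiv ℂ p) Ω :=
    hsm.continuousOn_fderiv_of_isOpen ho (by norm_num)
  -- bound for the derivative
  have hK : IsCompact ((univ : Set (Tn n)) ×ˢ Metric.closedBall z₀ (r / 2)) :=
    isCompact_univ.prod (isCompact_closedBall _ _)
  have hmaps : ∀ q ∈ (univ : Set (Tn n)) ×ˢ Metric.closedBall z₀ (r / 2), rot q.1 q.2 ∈ Ω :=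
    fun q hq => hI q.1 q.2 (hsub hq.2)
  have hcont : ContinuousOn (fun q : Tn n × (Fin n → ℂ) => fderiv ℂ p (rot q.1 q.2))
      (univ ×ˢ Metric.closedBall z₀ (r / 2)) :=
    hfc.comp continuous_rot.continuousOn hmaps
  obtain ⟨M, hM⟩ := hK.exists_bound_of_continuousOn hcont
  have key := hasFDerivAt_integral_of_dominated_of_fderiv_le (𝕜 := ℂ) (μ := tm n) (x₀ := z₀)
    (F := fun z t => mFourier (-v) t * p (rot t z))
    (F' := fun z t => (mFourier (-v) t : ℂ) • (fderiv ℂ p (rot t z)).comp (rotL t))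
    (bound := fun _ => M) (s := Metric.closedBall z₀ (r / 2))
    (Metric.closedBall_mem_nhds z₀ (by positivity)) ?_ ?_ ?_ ?_ ?_ ?_
  · exact key.differentiableAt
  · filter_upwards [ho.mem_nhds hz0] with z hz
    apply Continuous.aestronglyMeasurable
    exact (mFourier (-v)).continuous.mul (cont_orbit hI hp.continuousOn hz)
  · apply Continuous.integrable_of_hasCompactSupport
    · exact (mFourier (-v)).continuous.mul (cont_orbit hI hp.continuousOn hz0)
    · exact HasCompactSupport.of_compactSpace _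
  · apply Continuous.aestronglyMeasurable
    refine (mFourier (-v)).continuous.smul ?_
    refine Continuous.clm_comp ?_ continuous_rotL
    refine hfc.comp_continuous ?_ fun t => hI t z₀ hz0
    exact continuous_rot.comp (Continuous.prodMk_left z₀)
  · refine Eventually.of_forall fun t z hz => ?_
    rw [norm_smul, mFourier_ne, one_mul]
    refine (ContinuousLinearMap.opNorm_comp_le _ _).trans ?_
    have h1 := hM (t, z) ⟨mem_univ _, hz⟩
    calc ‖fderiv ℂ p (rot t z)‖ * ‖rotL t‖ ≤ ‖fderiv ℂ p (rot t z)‖ * 1 := by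
          gcongr
          exact norm_rotL_le t
      _ ≤ M := by rw [mul_one]; exact h1
  · exact integrable_const _
  · refine Eventually.of_forall fun t z hz => ?_
    have hzt : rot t z ∈ Ω := hI t z (hsub hz)
    have h1 : HasFDerivAt p (fderiv ℂ p (rot t z)) (rot t z) :=
      (hp.differentiableAt (ho.mem_nhds hzt)).hasFDerivAt
    exact (h1.comp z (hasFDerivAt_rot t z)).const_mul _

/-- averages of holomorphic functions are homogeneous -/
theorem Q_mem {Ω : Set (Fin n → ℂ)} (ho : IsOpen Ω) (hI : Inv Ω) (v : Fin n → ℤ)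
    {p : (Fin n → ℂ) → ℂ} (hp : DifferentiableOn ℂ p Ω) : Hm Ω v (Q v p) :=
  ⟨Q_diff ho hI v hp, fun t z _ => Q_hom hI v p t z⟩

/-- joint measure preservation -/
lemma mp_rot {Ω : Set (Fin n → ℂ)} (hI : Inv Ω) (hm : MeasurableSet Ω) :
    MeasurePreserving (fun q : (Fin n → ℂ) × Tn n => rot q.2 q.1)
      ((volume.restrict Ω).prod (tm n)) (volume.restrict Ω) := by
  have h1 : MeasurePreserving (fun q : Tn n × (Fin n → ℂ) => (q.1, rot q.1 q.2))
      ((tm n).prod (volume.restrict Ω)) ((tm n).prod (volume.restrict Ω)) := by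
    refine (MeasurePreserving.id (tm n)).skew_product (g := fun t z => rot t z)
      continuous_rot.measurable ?_
    exact Eventually.of_forall fun t => (hI.measurePreserving hm t).map_eq
  have h2 := (measurePreserving_snd (μ := tm n) (ν := volume.restrict Ω)).comp h1
  exact h2.comp Measure.measurePreserving_swap

/-- the `L²` contraction property of averages -/
theorem Q_lint {Ω : Set (Fin n → ℂ)} (ho : IsOpen Ω) (hI : Inv Ω) (v : Fin n → ℤ)
    {F : (Fin n → ℂ) → ℂ} (hF : ContinuousOn F Ω) :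
    ∫⁻ z in Ω, ‖Q v F z‖ₑ ^ 2 ≤ ∫⁻ z in Ω, ‖F z‖ₑ ^ 2 := by
  have hm := ho.measurableSet
  set G : (Fin n → ℂ) → ℂ := Ω.indicator F with hG
  have hGm : Measurable G := by
    classical
    have h2 := ContinuousOn.measurable_piecewise (s := Ω) hF
      (continuousOn_const (c := (0 : ℂ))) hm
    have h3 := Set.piecewise_eq_indicator (s := Ω) (f := F)
    rw [hG, ← h3]
    exact h2
  have hGF : ∀ z ∈ Ω, G z = F z := fun z hz => Set.indicator_of_mem hz F
  have h1 : ∀ z ∈ Ω, ‖Q v F z‖ₑ ^ 2 ≤ ∫⁻ t, ‖G (rot t z)‖ₑ ^ 2 ∂(tm n) := by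
    intro z hz
    have hc := cont_orbit hI hF hz
    have e1 : ‖Q v F z‖ₑ ≤ ∫⁻ t, ‖F (rot t z)‖ₑ ∂(tm n) := by
      unfold Q
      refine (enorm_integral_le_lintegral_enorm _).trans (le_of_eq ?_)
      refine lintegral_congr fun t => ?_
      rw [enorm_mul]
      have : ‖(mFourier (-v) t : ℂ)‖ₑ = 1 := by
        rw [← ofReal_norm, mFourier_ne]
        simp
      rw [this, one_mul]
    have e2 : ∫⁻ t, ‖F (rot t z)‖ₑ ∂(tm n) = eLpNorm (fun t => F (rot t z)) 1 (tm n) := by
      rw [eLpNorm_one_eq_lintegral_enorm]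
    have e3 : eLpNorm (fun t => F (rot t z)) 1 (tm n) ≤ eLpNorm (fun t => F (rot t z)) 2 (tm n) :=
      eLpNorm_le_eLpNorm_of_exponent_le (by norm_num) hc.aestronglyMeasurable
    have e4 : eLpNorm (fun t => F (rot t z)) 2 (tm n) ^ 2 = ∫⁻ t, ‖F (rot t z)‖ₑ ^ 2 ∂(tm n) := by
      have := eLpNorm_nnreal_pow_eq_lintegral (f := fun t => F (rot t z)) (μ := tm n)
        (p := (2 : NNReal)) (by norm_num)
      simpa using this
    calc ‖Q v F z‖ₑ ^ 2 ≤ eLpNorm (fun t => F (rot t z)) 2 (tm n) ^ 2 := by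
          gcongr
          exact (e1.trans_eq e2).trans e3
      _ = ∫⁻ t, ‖F (rot t z)‖ₑ ^ 2 ∂(tm n) := e4
      _ = ∫⁻ t, ‖G (rot t z)‖ₑ ^ 2 ∂(tm n) := by
          refine lintegral_congr fun t => ?_
          rw [hGF _ (hI t z hz)]
  calc ∫⁻ z in Ω, ‖Q v F z‖ₑ ^ 2
      ≤ ∫⁻ z in Ω, ∫⁻ t, ‖G (rot t z)‖ₑ ^ 2 ∂(tm n) := setLIntegral_mono' hm h1
    _ = ∫⁻ q, ‖G (rot q.2 q.1)‖ₑ ^ 2 ∂((volume.restrict Ω).prod (tm n)) := by
        rw [lintegral_prod]
        apply Measurable.aemeasurable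
        have : Measurable fun q : (Fin n → ℂ) × Tn n => rot q.2 q.1 :=
          (mp_rot hI hm).measurable
        exact ((hGm.comp this).enorm).pow_const 2
    _ = ∫⁻ z in Ω, ‖G z‖ₑ ^ 2 :=
        (mp_rot hI hm).lintegral_comp (f := fun z => ‖G z‖ₑ ^ 2) (hGm.enorm.pow_const 2)
    _ = ∫⁻ z in Ω, ‖F z‖ₑ ^ 2 := by
        refine setLIntegral_congr_fun hm fun z hz => ?_
        simp only [hGF z hz]

/-- pairing of an average with a homogeneous function -/
theorem Q_pair {Ω : Set (Fin n → ℂ)} (ho : IsOpen Ω) (hI : Inv Ω) (v : Fin n → ℤ)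
    {F h : (Fin n → ℂ) → ℂ} (hF2 : MemLp F 2 (volume.restrict Ω))
    (hh : Hm Ω v h) (hh2 : MemLp h 2 (volume.restrict Ω)) :
    ∫ z in Ω, Q v F z * conj (h z) = ∫ z in Ω, F z * conj (h z) := by
  have hm := ho.measurableSet
  have hint : Integrable (fun z => F z * conj (h z)) (volume.restrict Ω) :=
    MemLp.integrable_mul hF2 hh2.star
  have h1 : ∀ z ∈ Ω, Q v F z * conj (h z) =
      ∫ t, (F (rot t z) * conj (h (rot t z))) ∂(tm n) := by
    intro z hz
    unfold Q
    rw [← integral_mul_const]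
    refine integral_congr_ae (Eventually.of_forall fun t => ?_)
    simp only
    rw [hh.hom t z hz, map_mul, mFourier_neg]
    ring
  calc ∫ z in Ω, Q v F z * conj (h z)
      = ∫ z in Ω, ∫ t, (F (rot t z) * conj (h (rot t z))) ∂(tm n) :=
        setIntegral_congr_fun hm h1
    _ = ∫ q, (F (rot q.2 q.1) * conj (h (rot q.2 q.1))) ∂((volume.restrict Ω).prod (tm n)) := by
        rw [integral_prod]
        exact (mp_rot hI hm).integrable_comp_of_integrable hint
    _ = ∫ z in Ω, F z * conj (h z) := by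
        have := (mp_rot hI hm).map_eq
        conv_rhs => rw [← this]
        rw [integral_map (mp_rot hI hm).measurable.aemeasurable]
        rw [this]
        exact hint.aestronglyMeasurable

end Pool.Agent.L0h83.Hk
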