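import Pool.Agent.L0h83.Hk.QInt

set_option autoImplicit false

open MeasureTheory Set Filter Topology UnitAddTorus
open scoped ComplexConjugate ENNReal

namespace Pool.Agent.L0h83.Hk

variable {n : ℕ}

/-- squared `L²` norm -/
noncomputable def Nn (Ω : Set (Fin n → ℂ)) (u : (Fin n → ℂ) → ℂ) : ℝ := ∫ z in Ω, ‖u z‖ ^ 2

lemma Nn_nonneg (Ω : Set (Fin n → ℂ)) (u : (Fin n → ℂ) → ℂ) : 0 ≤ Nn Ω u :=
  integral_nonneg fun z => by positivity

/-- nonzero homogeneous square integrable holomorphic functions -/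
structure Elt (Ω : Set (Fin n → ℂ)) (w : Fin n → ℤ) (u : (Fin n → ℂ) → ℂ) : Prop where
  hm : Hm Ω w u
  lp : MemLp u 2 (volume.restrict Ω)
  ne : ∃ z ∈ Ω, u z ≠ 0

section

variable {Ω : Set (Fin n → ℂ)}

lemma meas_of_diff (ho : IsOpen Ω) {u : (Fin n → ℂ) → ℂ} (hu : DifferentiableOn ℂ u Ω) :
    AEStronglyMeasurable u (volume.restrict Ω) :=
  hu.continuousOn.aestronglyMeasurable ho.measurableSet

lemma int_sq {u : (Fin n → ℂ) → ℂ} (hu : MemLp u 2 (volume.restrict Ω)) :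
    Integrable (fun z => ‖u z‖ ^ 2) (volume.restrict Ω) :=
  (memLp_two_iff_integrable_sq_norm hu.aestronglyMeasurable).mp hu

/-- positivity of integrals over open sets -/
lemma setInt_pos (ho : IsOpen Ω) {u : (Fin n → ℂ) → ℂ} (hu : ContinuousOn u Ω)
    (hu2 : MemLp u 2 (volume.restrict Ω)) {U : Set (Fin n → ℂ)} (hU : IsOpen U) (hUΩ : U ⊆ Ω)
    {z₀ : Fin n → ℂ} (hz0 : z₀ ∈ U) (hne : u z₀ ≠ 0) : 0 < ∫ z in U, ‖u z‖ ^ 2 := by
  have h0 : IntegrableOn (fun z => ‖u z‖ ^ 2) Ω volume := int_sq hu2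
  have hi : IntegrableOn (fun z => ‖u z‖ ^ 2) U volume := h0.mono_set hUΩ
  rw [setIntegral_pos_iff_support_of_nonneg_ae (Eventually.of_forall fun z => by positivity) hi]
  have hop : IsOpen (U ∩ u ⁻¹' {0}ᶜ) :=
    (hu.mono hUΩ).isOpen_inter_preimage hU isOpen_compl_singleton
  refine (hop.measure_pos volume ⟨z₀, hz0, hne⟩).trans_le (measure_mono ?_)
  rintro z ⟨hzU, hz⟩
  refine ⟨?_, hzU⟩
  rw [Function.mem_support]
  have : u z ≠ 0 := hz
  positivity

lemma Elt.pos (ho : IsOpen Ω) {w : Fin n → ℤ} {u : (Fin n → ℂ) → ℂ} (hu : Elt Ω w u) :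
    0 < Nn Ω u := by
  obtain ⟨z₀, hz0, hne⟩ := hu.ne
  exact setInt_pos ho hu.hm.diff.continuousOn hu.lp ho Subset.rfl hz0 hne

lemma Hm.mul {w w' : Fin n → ℤ} {u u' : (Fin n → ℂ) → ℂ} (hu : Hm Ω w u) (hu' : Hm Ω w' u') :
    Hm Ω (w + w') (fun z => u z * u' z) := by
  refine ⟨hu.diff.mul hu'.diff, fun t z hz => ?_⟩
  rw [hu.hom t z hz, hu'.hom t z hz, mFourier_add]
  ring

lemma Hm.const_mul {w : Fin n → ℤ} {u : (Fin n → ℂ) → ℂ} (hu : Hm Ω w u) (c : ℂ) :
    Hm Ω w (fun z => c * u z) := by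
  refine ⟨hu.diff.const_mul c, fun t z hz => ?_⟩
  rw [hu.hom t z hz]
  ring

/-- the basic step -/
theorem step (ho : IsOpen Ω) (hc : IsPreconnected Ω) (hI : Inv Ω) {γ w : Fin n → ℤ}
    {φ u η D : (Fin n → ℂ) → ℂ} (hφ : Hm Ω γ φ) (hφ0 : ∃ z ∈ Ω, φ z ≠ 0) (hu : Elt Ω w u)
    (hη : Hm Ω (w - γ) η) (hD : ∀ z ∈ Ω, D z = conj (φ z) * u z + η z)
    (hD2 : MemLp D 2 (volume.restrict Ω)) {τ : ℝ} (hDN : Nn Ω D ≤ τ * Nn Ω u)
    (horth : ∀ h, Hm Ω (w - γ) h → MemLp h 2 (volume.restrict Ω) →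
      ∫ z in Ω, D z * conj (h z) = 0) :
    MemLp (fun z => φ z * u z) 2 (volume.restrict Ω) ∧
      (Nn Ω (fun z => φ z * u z) ≤ τ * Nn Ω u ∨
        ∃ u', Elt Ω (w - γ) u' ∧ (∀ z ∈ Ω, φ z * u' z = u z) ∧
          Nn Ω (fun z => φ z * u z) ≤ τ * Nn Ω u + Nn Ω u ^ 2 / Nn Ω u') := by
  have hms := ho.measurableSet
  have hφu : AEStronglyMeasurable (fun z => φ z * u z) (volume.restrict Ω) :=
    meas_of_diff ho (hφ.diff.mul hu.hm.diff)
  by_cases hP : ∃ u', Elt Ω (w - γ) u' ∧ ∀ z ∈ Ω, φ z * u' z = u z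
  · obtain ⟨u', hu', hφu'⟩ := hP
    obtain ⟨c, hc'⟩ := hom_unique ho hc hu'.hm hη hu'.ne
    have hp' := hu'.pos ho
    -- the constant
    have hcval : c = ((-(Nn Ω u / Nn Ω u') : ℝ) : ℂ) := by
      have h1 := horth u' hu'.hm hu'.lp
      have h2 : ∫ z in Ω, D z * conj (u' z) =
          ∫ z in Ω, (((‖u z‖ ^ 2 : ℝ) : ℂ) + c * ((‖u' z‖ ^ 2 : ℝ) : ℂ)) := by
        refine setIntegral_congr_fun hms fun z hz => ?_
        rw [hD z hz, hc' z hz, Complex.ofReal_pow, Complex.ofReal_pow, ← Complex.mul_conj',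
          ← Complex.mul_conj', ← hφu' z hz, map_mul]
        ring
      rw [h2, integral_add, integral_const_mul, integral_complex_ofReal,
        integral_complex_ofReal] at h1
      · have h3 : ((Nn Ω u : ℝ) : ℂ) + c * ((Nn Ω u' : ℝ) : ℂ) = 0 := h1
        have h4 : ((Nn Ω u' : ℝ) : ℂ) ≠ 0 := Complex.ofReal_ne_zero.mpr hp'.ne'
        push_cast
        field_simp
        linear_combination h3
      · exact (int_sq hu.lp).ofReal
      · exact ((int_sq hu'.lp).ofReal).const_mul c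
    set c' : ℝ := -(Nn Ω u / Nn Ω u') with hc'def
    have hL : MemLp (fun z => φ z * u z) 2 (volume.restrict Ω) := by
      have h1 : MemLp (fun z => D z - c * u' z) 2 (volume.restrict Ω) :=
        hD2.sub (hu'.lp.const_mul c)
      refine h1.congr_norm hφu ?_
      filter_upwards [ae_restrict_mem hms] with z hz
      rw [hD z hz, hc' z hz, add_sub_cancel_right, norm_mul, norm_mul, Complex.norm_conj]
    refine ⟨hL, Or.inr ⟨u', hu', hφu', ?_⟩⟩
    have hpt : ∀ z ∈ Ω, ‖φ z * u z‖ ^ 2 = ‖D z‖ ^ 2 - 2 * c' * ‖u z‖ ^ 2 - c' ^ 2 * ‖u' z‖ ^ 2 := by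
      intro z hz
      have e1 : D z = ((‖φ z‖ ^ 2 + c' : ℝ) : ℂ) * u' z := by
        rw [hD z hz, hc' z hz, hcval, ← hφu' z hz]
        push_cast
        rw [← Complex.mul_conj']
        ring
      have e2 : ‖D z‖ ^ 2 = (‖φ z‖ ^ 2 + c') ^ 2 * ‖u' z‖ ^ 2 := by
        rw [e1, norm_mul, mul_pow, Complex.norm_real, Real.norm_eq_abs, sq_abs]
      have e3 : ‖u z‖ ^ 2 = ‖φ z‖ ^ 2 * ‖u' z‖ ^ 2 := by
        rw [← hφu' z hz, norm_mul, mul_pow]
      rw [e2, norm_mul, mul_pow, e3]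
      ring
    have hN : Nn Ω (fun z => φ z * u z) = Nn Ω D - 2 * c' * Nn Ω u - c' ^ 2 * Nn Ω u' := by
      unfold Nn
      rw [setIntegral_congr_fun hms hpt]
      rw [integral_sub, integral_sub, integral_const_mul, integral_const_mul]
      · exact int_sq hD2
      · exact (int_sq hu.lp).const_mul _
      · exact (int_sq hD2).sub ((int_sq hu.lp).const_mul _)
      · exact (int_sq hu'.lp).const_mul _
    rw [hN]
    have e4 : -2 * c' * Nn Ω u - c' ^ 2 * Nn Ω u' = Nn Ω u ^ 2 / Nn Ω u' := by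
      rw [hc'def]
      field_simp
      ring
    linarith
  · -- no predecessor: `η = 0`
    have hη0 : ∀ z ∈ Ω, η z = 0 := by
      by_contra hcon
      push Not at hcon
      have h1 : Hm Ω w (fun z => φ z * η z) := by
        have := hφ.mul hη
        rwa [add_sub_cancel] at this
      obtain ⟨c, hcu⟩ := hom_unique ho hc hu.hm h1 hu.ne
      have hc0 : c ≠ 0 := by
        intro h0
        obtain ⟨z, hz, hzn⟩ := hcon
        refine hzn (eq_zero_of_mul ho hc hφ.diff hη.diff hφ0 (fun x hx => ?_) z hz)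
        have := hcu x hx
        rw [this, h0, zero_mul]
      have hbd : ∀ z ∈ Ω, ‖φ z * u z‖ ^ 2 ≤ 4 * ‖D z‖ ^ 2 + 2 * ‖c‖ * ‖u z‖ ^ 2 := by
        intro z hz
        set x := ‖φ z‖ with hx
        have hx0 : 0 ≤ x := norm_nonneg _
        have hu0 : 0 ≤ ‖u z‖ := norm_nonneg _
        have e1 : D z * φ z = (((x ^ 2 : ℝ) : ℂ) + c) * u z := by
          have := hcu z hz
          rw [hD z hz, hx, Complex.ofReal_pow, ← Complex.mul_conj']
          linear_combination this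
        have e2 : ‖D z‖ * x = ‖(((x ^ 2 : ℝ) : ℂ) + c)‖ * ‖u z‖ := by
          rw [hx, ← norm_mul, e1, norm_mul]
        have e3 : x ^ 2 - ‖c‖ ≤ ‖(((x ^ 2 : ℝ) : ℂ) + c)‖ := by
          have h2 := norm_sub_norm_le (((x ^ 2 : ℝ) : ℂ)) (-c)
          rw [norm_neg, sub_neg_eq_add, Complex.norm_real, Real.norm_eq_abs,
            abs_of_nonneg (by positivity)] at h2
          exact h2
        rw [norm_mul, mul_pow, ← hx]
        by_cases hcase : x ^ 2 ≤ 2 * ‖c‖
        · have : x ^ 2 * ‖u z‖ ^ 2 ≤ 2 * ‖c‖ * ‖u z‖ ^ 2 := by gcongr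
          have h4 : 0 ≤ 4 * ‖D z‖ ^ 2 := by positivity
          linarith
        · push Not at hcase
          have hcn : 0 ≤ ‖c‖ := norm_nonneg _
          have hxp : 0 < x := by
            by_contra hh
            have : x = 0 := le_antisymm (not_lt.mp hh) hx0
            rw [this] at hcase
            norm_num at hcase
            linarith
          have h5 : x ^ 2 / 2 * ‖u z‖ ≤ ‖D z‖ * x := by
            rw [e2]
            refine mul_le_mul_of_nonneg_right ?_ hu0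
            linarith
          have h6 : x * ‖u z‖ ≤ 2 * ‖D z‖ := by
            have : x * (x * ‖u z‖) ≤ x * (2 * ‖D z‖) := by nlinarith
            exact le_of_mul_le_mul_left this hxp
          have h7 : (x * ‖u z‖) ^ 2 ≤ (2 * ‖D z‖) ^ 2 := by gcongr
          have h8 : 0 ≤ 2 * ‖c‖ * ‖u z‖ ^ 2 := by positivity
          nlinarith
      have hL : MemLp (fun z => φ z * u z) 2 (volume.restrict Ω) := by
        rw [memLp_two_iff_integrable_sq_norm hφu]
        refine (((int_sq hD2).const_mul 4).add ((int_sq hu.lp).const_mul (2 * ‖c‖))).mono'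
          (hφu.norm.pow 2) ?_
        filter_upwards [ae_restrict_mem hms] with z hz
        rw [Real.norm_of_nonneg (by positivity)]
        exact hbd z hz
      have hL2 : MemLp (fun z => conj (φ z) * u z) 2 (volume.restrict Ω) := by
        refine hL.congr_norm ?_ (Eventually.of_forall fun z => ?_)
        · refine ContinuousOn.aestronglyMeasurable ?_ hms
          exact (hφ.diff.continuousOn.star).mul hu.hm.diff.continuousOn
        · simp only [norm_mul, Complex.norm_conj]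
      have hηL : MemLp η 2 (volume.restrict Ω) := by
        refine (memLp_congr_ae ?_).mp (hD2.sub hL2)
        filter_upwards [ae_restrict_mem hms] with z hz
        rw [Pi.sub_apply, hD z hz, add_sub_cancel_left]
      refine hP ⟨fun z => c⁻¹ * η z, ⟨hη.const_mul _, hηL.const_mul _, ?_⟩, fun z hz => ?_⟩
      · obtain ⟨z, hz, hzn⟩ := hcon
        exact ⟨z, hz, mul_ne_zero (inv_ne_zero hc0) hzn⟩
      · have := hcu z hz
        rw [mul_left_comm, this, ← mul_assoc, inv_mul_cancel₀ hc0, one_mul]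
    have hpt : ∀ z ∈ Ω, ‖D z‖ = ‖φ z * u z‖ := by
      intro z hz
      rw [hD z hz, hη0 z hz, add_zero, norm_mul, norm_mul, Complex.norm_conj]
    refine ⟨?_, Or.inl ?_⟩
    · refine hD2.congr_norm hφu ?_
      filter_upwards [ae_restrict_mem hms] with z hz
      exact hpt z hz
    · have : Nn Ω (fun z => φ z * u z) = Nn Ω D := by
        unfold Nn
        refine setIntegral_congr_fun hms fun z hz => ?_
        simp only [hpt z hz]
      rw [this]
      exact hDN

end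

end Pool.Agent.L0h83.Hk
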