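import Mathlib

set_option autoImplicit false

open MeasureTheory Set Filter Topology UnitAddTorus
open scoped ComplexConjugate ENNReal

namespace Pool.Agent.L0h83.Hk

/-- the torus -/
abbrev Tn (n : ℕ) := UnitAddTorus (Fin n)

variable {n : ℕ}

/-- normalised Haar measure of the torus -/
noncomputable def tm (n : ℕ) : Measure (Tn n) := Measure.pi fun _ => AddCircle.haarAddCircle

noncomputable instance : IsProbabilityMeasure (tm n) := by
  unfold tm; infer_instance

noncomputable instance : (tm n).IsAddHaarMeasure := by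
  unfold tm; infer_instance

/-- the action of the torus on `ℂ^n` -/
noncomputable def rot (t : Tn n) (z : Fin n → ℂ) : Fin n → ℂ := fun j => fourier 1 (t j) * z j

lemma rot_apply (t : Tn n) (z : Fin n → ℂ) (j : Fin n) : rot t z j = fourier 1 (t j) * z j := rfl

lemma rot_add (s t : Tn n) (z : Fin n → ℂ) : rot (s + t) z = rot s (rot t z) := by
  funext j
  simp only [rot_apply, Pi.add_apply]
  have : (fourier 1 (s j + t j) : ℂ) = fourier 1 (s j) * fourier 1 (t j) := by
    simp only [fourier_apply, one_smul, AddCircle.toCircle_add, Circle.coe_mul]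
  rw [this, mul_assoc]

lemma rot_zero (z : Fin n → ℂ) : rot 0 z = z := by
  funext j
  simp [rot_apply]

lemma continuous_rot : Continuous fun p : Tn n × (Fin n → ℂ) => rot p.1 p.2 := by
  refine continuous_pi fun j => ?_
  simp only [rot_apply]
  fun_prop

lemma measurePreserving_rot (t : Tn n) : MeasurePreserving (rot t) volume volume := by
  have h1 : ∀ j, MeasurePreserving (fun z : ℂ => (fourier 1 (t j) : ℂ) * z) volume volume := by
    intro j
    have := (rotation (AddCircle.toCircle (t j))).measurePreserving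
    have e : (fun z : ℂ => (fourier 1 (t j) : ℂ) * z) = rotation (AddCircle.toCircle (t j)) := by
      funext z
      simp [rotation_apply, fourier_apply]
    rw [e]
    exact this
  exact volume_preserving_pi h1

/-- `Ω` is invariant under the torus -/
def Inv (Ω : Set (Fin n → ℂ)) : Prop := ∀ t : Tn n, ∀ z ∈ Ω, rot t z ∈ Ω

lemma Inv.iff {Ω : Set (Fin n → ℂ)} (h : Inv Ω) (t : Tn n) (z : Fin n → ℂ) :
    rot t z ∈ Ω ↔ z ∈ Ω := by
  refine ⟨fun hz => ?_, h t z⟩
  have := h (-t) _ hz
  rwa [← rot_add, neg_add_cancel, rot_zero] at this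

lemma Inv.measurePreserving {Ω : Set (Fin n → ℂ)} (h : Inv Ω) (hm : MeasurableSet Ω) (t : Tn n) :
    MeasurePreserving (rot t) (volume.restrict Ω) (volume.restrict Ω) := by
  have h1 := (measurePreserving_rot t).restrict_preimage hm
  have h2 : rot t ⁻¹' Ω = Ω := by
    ext z
    exact h.iff t z
  rwa [h2] at h1

/-- homogeneous holomorphic functions of weight `w` -/
structure Hm (Ω : Set (Fin n → ℂ)) (w : Fin n → ℤ) (g : (Fin n → ℂ) → ℂ) : Prop where
  diff : DifferentiableOn ℂ g Ω
  hom : ∀ t : Tn n, ∀ z ∈ Ω, g (rot t z) = mFourier w t * g z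

/-- torus averages -/
noncomputable def Q (v : Fin n → ℤ) (F : (Fin n → ℂ) → ℂ) (z : Fin n → ℂ) : ℂ :=
  ∫ t, mFourier (-v) t * F (rot t z) ∂(tm n)

lemma mFourier_ne (v : Fin n → ℤ) (t : Tn n) : ‖mFourier v t‖ = 1 := by
  simp only [mFourier, fourier_apply, ContinuousMap.coe_mk, norm_prod, Circle.norm_coe,
      Finset.prod_const_one]

lemma mFourier_add' (v : Fin n → ℤ) (s t : Tn n) :
    mFourier v (s + t) = mFourier v s * mFourier v t := by
  simp only [mFourier, ContinuousMap.coe_mk, Pi.add_apply, ← Finset.prod_mul_distrib]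
  refine Finset.prod_congr rfl fun j _ => ?_
  simp only [fourier_apply, smul_add, AddCircle.toCircle_add, Circle.coe_mul]

lemma mFourier_conj (v : Fin n → ℤ) (t : Tn n) : conj (mFourier v t) * mFourier v t = 1 := by
  rw [mul_comm, Complex.mul_conj, Complex.normSq_eq_norm_sq, mFourier_ne]
  simp

lemma mFourier_mul_neg (v : Fin n → ℤ) (t : Tn n) : mFourier (-v) t * mFourier v t = 1 := by
  rw [mFourier_neg, mFourier_conj]

section

variable {Ω : Set (Fin n → ℂ)}

lemma cont_orbit (h : Inv Ω) {F : (Fin n → ℂ) → ℂ} (hF : ContinuousOn F Ω)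
    {z : Fin n → ℂ} (hz : z ∈ Ω) : Continuous fun t : Tn n => F (rot t z) := by
  refine hF.comp_continuous ?_ fun t => h t z hz
  exact continuous_rot.comp (Continuous.prodMk_left z)

lemma Q_hom (h : Inv Ω) (v : Fin n → ℤ) (F : (Fin n → ℂ) → ℂ) (s : Tn n) (z : Fin n → ℂ) :
    Q v F (rot s z) = mFourier v s * Q v F z := by
  unfold Q
  have h1 : ∀ t : Tn n, mFourier (-v) t * F (rot t (rot s z)) =
      mFourier v s * (mFourier (-v) (t + s) * F (rot (t + s) z)) := by
    intro t
    rw [rot_add, mFourier_add' (-v) t s]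
    have := mFourier_mul_neg v s
    linear_combination (-(mFourier (-v) t * F (rot t (rot s z)))) * this
  simp_rw [h1]
  rw [integral_const_mul, integral_add_right_eq_self (μ := tm n)
    (fun t => mFourier (-v) t * F (rot t z)) s]

lemma Q_prod {w γ : Fin n → ℤ} {e f : (Fin n → ℂ) → ℂ} (he : Hm Ω w e) {z : Fin n → ℂ}
    (hz : z ∈ Ω) :
    Q (w - γ) (fun x => conj (f x) * e x) z = conj (Q γ f z) * e z := by
  unfold Q
  rw [← integral_conj, ← integral_mul_const]
  refine integral_congr_ae (Eventually.of_forall fun t => ?_)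
  simp only
  rw [he.hom t z hz, map_mul, neg_sub, show γ - w = γ + -w by ring, mFourier_add]
  have h1 := mFourier_mul_neg w t
  have h2 : conj (mFourier (-γ) t) = mFourier γ t := by
    rw [mFourier_neg, Complex.conj_conj]
  rw [h2]
  linear_combination (mFourier γ t * conj (f (rot t z)) * e z) * h1

end

end Pool.Agent.L0h83.Hk
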